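import Pool.Agent.TH708.Ari.Rk

/-!
# One layer of a circuit of formal degree one
-/

set_option autoImplicit false
set_option linter.unusedSectionVars false

namespace Pool.Agent.TH708.Ari

open Finset Pool.Agent.TH708.Nar

section Tree

variable {K I : Type} (C : Ckt K I)

theorem tree_var (g : C.G) (i : I) (h : C.kind g = Kind.var i) : C.tree g = Ex.var i := by
  rw [Ckt.tree]; split <;> simp_all

theorem tree_const (g : C.G) (c : K) (h : C.kind g = Kind.const c) : C.tree g = Ex.const c := by
  rw [Ckt.tree]; split <;> simp_all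

theorem tree_add (g a b : C.G) (h : C.kind g = Kind.add a b) :
    C.tree g = Ex.add (C.tree a) (C.tree b) := by
  rw [Ckt.tree]; split <;> simp_all

theorem tree_mul (g a b : C.G) (h : C.kind g = Kind.mul a b) :
    C.tree g = Ex.mul (C.tree a) (C.tree b) := by
  rw [Ckt.tree]; split <;> simp_all

end Tree

variable {K I V : Type} [Field K] [DecidableEq I] [DecidableEq V] [Fintype V]

open Classical in
/-- The point with tracked coordinates `x` and side coordinates `ρ`. -/
noncomputable def point (e : V → I) (ρ : I → K) (x : V → Bool) : I → K :=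
  fun v => if h : ∃ i, e i = v then (if x h.choose = true then 1 else 0) else ρ v

theorem point_e {e : V → I} (he : Function.Injective e) (ρ : I → K) (x : V → Bool) (i : V) :
    point e ρ x (e i) = if x i = true then 1 else 0 := by
  have h : ∃ j, e j = e i := ⟨i, rfl⟩
  unfold point
  rw [dif_pos h]
  have : h.choose = i := he h.choose_spec
  rw [this]

theorem point_off {e : V → I} (ρ : I → K) (x : V → Bool) (v : I) (h : ∀ i, e i ≠ v) :
    point e ρ x v = ρ v := by
  unfold point
  rw [dif_neg (fun ⟨i, hi⟩ => h i hi)]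

/-- The value of a node at a point. -/
noncomputable def val (C : Ckt K I) (e : V → I) (ρ : I → K) (g : C.G) (x : V → Bool) : K :=
  (C.tree g).eval (point e ρ x)

/-- The tracked variables that are read by a node. -/
def vs (C : Ckt K I) (e : V → I) (g : C.G) : Finset V := univ.filter fun i => 1 ≤ (C.tree g).deg (e i)

/-- The formal degrees of the node in the tracked variables are at most one. -/
def Ok (C : Ckt K I) (e : V → I) (g : C.G) : Prop := ∀ i : V, (C.tree g).deg (e i) ≤ 1

variable {C : Ckt K I} {e : V → I} {ρ : I → K}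

theorem mem_vs {g : C.G} {i : V} : i ∈ vs C e g ↔ 1 ≤ (C.tree g).deg (e i) := by
  simp [vs]

theorem Ex.eval_congr' (F : Ex K I) {z z' : I → K} (h : ∀ i, 1 ≤ F.deg i → z i = z' i) :
    F.eval z = F.eval z' := by
  induction F with
  | var i => simp only [Ex.eval]; rw [h i (by simp [Ex.deg])]
  | const b => rfl
  | add F G ihF ihG =>
    simp only [Ex.eval]
    rw [ihF fun i hi => h i (by simp only [Ex.deg]; omega),
      ihG fun i hi => h i (by simp only [Ex.deg]; omega)]
  | mul F G ihF ihG =>
    simp only [Ex.eval]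
    rw [ihF fun i hi => h i (by simp only [Ex.deg]; omega),
      ihG fun i hi => h i (by simp only [Ex.deg]; omega)]

theorem val_dep (he : Function.Injective e) (g : C.G) : Dep (vs C e g) (val C e ρ g) := by
  intro x x' hx
  unfold val
  apply Ex.eval_congr'
  intro v hv
  by_cases h : ∃ i, e i = v
  · obtain ⟨i, rfl⟩ := h
    rw [point_e he, point_e he, hx i (mem_vs.2 hv)]
  · push Not at h
    rw [point_off _ _ _ h, point_off _ _ _ h]

theorem vs_small (he : Function.Injective e) {g : C.G} (h : ¬ C.IsGate g) :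
    (vs C e g).card ≤ 1 := by
  rw [card_le_one]
  intro i hi j hj
  rw [mem_vs] at hi hj
  cases hk : C.kind g with
  | var v =>
    rw [tree_var C g v hk] at hi hj
    simp only [Ex.deg] at hi hj
    apply he
    by_cases h1 : v = e i
    · by_cases h2 : v = e j
      · rw [← h1, ← h2]
      · rw [if_neg h2] at hj; omega
    · rw [if_neg h1] at hi; omega
  | const c =>
    rw [tree_const C g c hk] at hi
    simp [Ex.deg] at hi
  | add a b => exact absurd ⟨a, b, Or.inl hk⟩ h
  | mul a b => exact absurd ⟨a, b, Or.inr hk⟩ h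

/-- A node is either significant or gives a factor with few variables. -/
theorem one_node (he : Function.Injective e) (t : ℕ) (a : C.G) :
    ∃ (r : (V → Bool) → K) (R : Finset V) (A : Finset C.G),
      (∀ x, val C e ρ a x = r x * ∏ c ∈ A, val C e ρ c x) ∧ Dep R r ∧ R.card ≤ t ∧
      R ⊆ vs C e a ∧ (∀ c ∈ A, c = a ∧ t ≤ (vs C e c).card ∧ R = ∅) := by
  by_cases h : t ≤ (vs C e a).card
  · exact ⟨fun _ => 1, ∅, {a}, fun x => by simp, fun _ _ _ => rfl, by simp, empty_subset _,
      fun c hc => by rw [mem_singleton] at hc; subst hc; exact ⟨rfl, h, rfl⟩⟩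
  · exact ⟨val C e ρ a, vs C e a, ∅, fun x => by simp, val_dep he a, by omega, Subset.rfl,
      fun c hc => absurd hc (notMem_empty _)⟩

/-- The expansion of a gate into two terms. -/
theorem one_gate (he : Function.Injective e) (t : ℕ) (ht : 1 ≤ t) {g : C.G} (hg : C.IsGate g)
    (hok : Ok C e g) :
    ∃ (r : Bool → (V → Bool) → K) (R : Bool → Finset V) (A : Bool → Finset C.G),
      (∀ x, val C e ρ g x = r true x * ∏ c ∈ A true, val C e ρ c x +
        r false x * ∏ c ∈ A false, val C e ρ c x) ∧
      ∀ β, Dep (R β) (r β) ∧ (R β).card ≤ 2 * t ∧ R β ⊆ vs C e g ∧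
        (∀ c ∈ A β, t ≤ (vs C e c).card ∧ vs C e c ⊆ vs C e g ∧ Ok C e c ∧
          Disjoint (R β) (vs C e c) ∧
          ∃ a b, (C.kind g = Kind.add a b ∨ C.kind g = Kind.mul a b) ∧ (c = a ∨ c = b)) ∧
        ∀ c ∈ A β, ∀ c' ∈ A β, c ≠ c' → Disjoint (vs C e c) (vs C e c') := by
  classical
  obtain ⟨a, b, hk | hk⟩ := hg
  · -- sum gate
    have htr := tree_add C g a b hk
    have hva : vs C e a ⊆ vs C e g := by
      intro i hi
      rw [mem_vs] at hi ⊢
      rw [htr]; simp only [Ex.deg]; omega
    have hvb : vs C e b ⊆ vs C e g := by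
      intro i hi
      rw [mem_vs] at hi ⊢
      rw [htr]; simp only [Ex.deg]; omega
    have hoa : Ok C e a := by
      intro i; have := hok i; rw [htr] at this; simp only [Ex.deg] at this; omega
    have hob : Ok C e b := by
      intro i; have := hok i; rw [htr] at this; simp only [Ex.deg] at this; omega
    obtain ⟨ra, Ra, Aa, a1, a2, a3, a4, a5⟩ := one_node (ρ := ρ) he t a
    obtain ⟨rb, Rb, Ab, b1, b2, b3, b4, b5⟩ := one_node (ρ := ρ) he t b
    refine ⟨fun β => if β then ra else rb, fun β => if β then Ra else Rb,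
      fun β => if β then Aa else Ab, ?_, ?_⟩
    · intro x
      simp only [if_true, Bool.false_eq_true, if_false]
      rw [← a1, ← b1]
      unfold val
      rw [htr]; rfl
    · rintro (_ | _)
      · simp only [Bool.false_eq_true, if_false]
        refine ⟨b2, by omega, b4.trans hvb, ?_, ?_⟩
        · intro c hc
          obtain ⟨h1, h2, h3⟩ := b5 c hc
          subst h1
          exact ⟨h2, hvb, hob, by rw [h3]; exact disjoint_empty_left _, a, c, Or.inl hk,
            Or.inr rfl⟩
        · intro c hc c' hc' hne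
          exact absurd ((b5 c hc).1.trans (b5 c' hc').1.symm) hne
      · simp only [if_true]
        refine ⟨a2, by omega, a4.trans hva, ?_, ?_⟩
        · intro c hc
          obtain ⟨h1, h2, h3⟩ := a5 c hc
          subst h1
          exact ⟨h2, hva, hoa, by rw [h3]; exact disjoint_empty_left _, c, b, Or.inl hk,
            Or.inl rfl⟩
        · intro c hc c' hc' hne
          exact absurd ((a5 c hc).1.trans (a5 c' hc').1.symm) hne
  · -- product gate
    have htr := tree_mul C g a b hk
    have hva : vs C e a ⊆ vs C e g := by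
      intro i hi
      rw [mem_vs] at hi ⊢
      rw [htr]; simp only [Ex.deg]; omega
    have hvb : vs C e b ⊆ vs C e g := by
      intro i hi
      rw [mem_vs] at hi ⊢
      rw [htr]; simp only [Ex.deg]; omega
    have hoa : Ok C e a := by
      intro i; have := hok i; rw [htr] at this; simp only [Ex.deg] at this; omega
    have hob : Ok C e b := by
      intro i; have := hok i; rw [htr] at this; simp only [Ex.deg] at this; omega
    have hdis : Disjoint (vs C e a) (vs C e b) := by
      rw [disjoint_left]
      intro i hi hi'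
      rw [mem_vs] at hi hi'
      have := hok i
      rw [htr] at this
      simp only [Ex.deg] at this
      omega
    obtain ⟨ra, Ra, Aa, a1, a2, a3, a4, a5⟩ := one_node (ρ := ρ) he t a
    obtain ⟨rb, Rb, Ab, b1, b2, b3, b4, b5⟩ := one_node (ρ := ρ) he t b
    have hAd : Disjoint Aa Ab := by
      rw [disjoint_left]
      intro c hc hc'
      have h1 := (a5 c hc).1
      have h2 := (b5 c hc').1
      have h3 := (a5 c hc).2.1
      have hne : (vs C e c).Nonempty := by rw [← card_pos]; omega
      obtain ⟨i, hi⟩ := hne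
      exact disjoint_left.1 hdis (h1 ▸ hi) (h2 ▸ hi)
    refine ⟨fun β => if β then (fun x => ra x * rb x) else fun _ => 0,
      fun β => if β then Ra ∪ Rb else ∅, fun β => if β then Aa ∪ Ab else ∅, ?_, ?_⟩
    · intro x
      simp only [if_true, Bool.false_eq_true, if_false]
      rw [prod_union hAd]
      have : val C e ρ g x = val C e ρ a x * val C e ρ b x := by
        unfold val
        rw [htr]; rfl
      rw [this, a1, b1]
      ring
    · rintro (_ | _)
      · simp only [Bool.false_eq_true, if_false]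
        exact ⟨fun _ _ _ => rfl, by simp, empty_subset _, fun c hc => absurd hc (notMem_empty _),
          fun c hc => absurd hc (notMem_empty _)⟩
      · simp only [if_true]
        refine ⟨a2.mul b2, ?_, union_subset (a4.trans hva) (b4.trans hvb), ?_, ?_⟩
        · have := card_union_le Ra Rb
          omega
        · intro c hc
          rw [mem_union] at hc
          rcases hc with hc | hc
          · obtain ⟨h1, h2, h3⟩ := a5 c hc
            subst h1
            refine ⟨h2, hva, hoa, ?_, c, b, Or.inr hk, Or.inl rfl⟩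
            rw [h3, empty_union]
            exact disjoint_of_subset_left b4 hdis.symm
          · obtain ⟨h1, h2, h3⟩ := b5 c hc
            subst h1
            refine ⟨h2, hvb, hob, ?_, a, c, Or.inr hk, Or.inr rfl⟩
            rw [h3, union_empty]
            exact disjoint_of_subset_left a4 hdis
        · intro c hc c' hc' hne
          rw [mem_union] at hc hc'
          rcases hc with hc | hc <;> rcases hc' with hc' | hc'
          · exact absurd ((a5 c hc).1.trans (a5 c' hc').1.symm) hne
          · rw [(a5 c hc).1, (b5 c' hc').1]; exact hdis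
          · rw [(b5 c hc).1, (a5 c' hc').1]; exact hdis.symm
          · exact absurd ((b5 c hc).1.trans (b5 c' hc').1.symm) hne

/-- A set of gates of one layer that read many variables each, and no common ones. -/
structure State (C : Ckt K I) (e : V → I) (t : ℕ) (lay : C.G → ℕ) (j : ℕ) (S : Finset C.G) :
    Prop where
  gate : ∀ g ∈ S, C.IsGate g
  layer : ∀ g ∈ S, lay g = j
  ok : ∀ g ∈ S, Ok C e g
  big : ∀ g ∈ S, t ≤ (vs C e g).card
  disj : ∀ g ∈ S, ∀ g' ∈ S, g ≠ g' → Disjoint (vs C e g) (vs C e g')

/-- The expansion of a product of gates of one layer. -/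
theorem one_layer (he : Function.Injective e) (t : ℕ) (ht : 2 ≤ t) (lay : C.G → ℕ)
    (hl : ∀ p a b, (C.kind p = Kind.add a b ∨ C.kind p = Kind.mul a b) →
      (C.IsGate a → lay a = lay p + 1) ∧ (C.IsGate b → lay b = lay p + 1)) {j : ℕ}
    {S : Finset C.G} (hS : State C e t lay j S) :
    ∃ (r : Finset C.G → (V → Bool) → K) (R : Finset C.G → Finset V)
      (A : Finset C.G → Finset C.G),
      (∀ x, ∏ g ∈ S, val C e ρ g x = ∑ T ∈ S.powerset, r T x * ∏ c ∈ A T, val C e ρ c x) ∧
      ∀ T, Dep (R T) (r T) ∧ (R T).card ≤ S.card * (2 * t) ∧ R T ⊆ S.biUnion (vs C e) ∧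
        State C e t lay (j + 1) (A T) ∧ (A T).biUnion (vs C e) ⊆ S.biUnion (vs C e) ∧
        Disjoint (R T) ((A T).biUnion (vs C e)) := by
  classical
  have h0 : ∀ g : C.G, ∃ (r : Bool → (V → Bool) → K) (R : Bool → Finset V)
      (A : Bool → Finset C.G), g ∈ S → (∀ x, val C e ρ g x = r true x *
        ∏ c ∈ A true, val C e ρ c x + r false x * ∏ c ∈ A false, val C e ρ c x) ∧
      ∀ β, Dep (R β) (r β) ∧ (R β).card ≤ 2 * t ∧ R β ⊆ vs C e g ∧
        (∀ c ∈ A β, t ≤ (vs C e c).card ∧ vs C e c ⊆ vs C e g ∧ Ok C e c ∧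
          Disjoint (R β) (vs C e c) ∧
          ∃ a b, (C.kind g = Kind.add a b ∨ C.kind g = Kind.mul a b) ∧ (c = a ∨ c = b)) ∧
        ∀ c ∈ A β, ∀ c' ∈ A β, c ≠ c' → Disjoint (vs C e c) (vs C e c') := by
    intro g
    by_cases hg : g ∈ S
    · obtain ⟨r, R, A, h1, h2⟩ := one_gate (ρ := ρ) he t (by omega) (hS.gate g hg) (hS.ok g hg)
      exact ⟨r, R, A, fun _ => ⟨h1, h2⟩⟩
    · exact ⟨fun _ _ => 0, fun _ => ∅, fun _ => ∅, fun h => absurd h hg⟩
  choose r R A h1 using h0
  have hdisA : ∀ (T : Finset C.G), ∀ g ∈ S, ∀ g' ∈ S, g ≠ g' →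
      Disjoint (A g (decide (g ∈ T))) (A g' (decide (g' ∈ T))) := by
    intro T g hg g' hg' hne
    rw [disjoint_left]
    intro c hc hc'
    obtain ⟨h2, h3, _⟩ := ((h1 g hg).2 _).2.2.2.1 c hc
    obtain ⟨h2', h3', _⟩ := ((h1 g' hg').2 _).2.2.2.1 c hc'
    have hn : (vs C e c).Nonempty := by rw [← card_pos]; omega
    obtain ⟨i, hi⟩ := hn
    exact disjoint_left.1 (hS.disj g hg g' hg' hne) (h3 hi) (h3' hi)
  refine ⟨fun T x => ∏ g ∈ S, r g (decide (g ∈ T)) x, fun T => S.biUnion fun g =>
    R g (decide (g ∈ T)), fun T => S.biUnion fun g => A g (decide (g ∈ T)), ?_, ?_⟩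
  · intro x
    have e1 : ∏ g ∈ S, val C e ρ g x = ∏ g ∈ S, (r g true x * ∏ c ∈ A g true, val C e ρ c x +
        r g false x * ∏ c ∈ A g false, val C e ρ c x) :=
      prod_congr rfl fun g hg => (h1 g hg).1 x
    rw [e1, prod_add]
    refine sum_congr rfl fun T hT => ?_
    rw [mem_powerset] at hT
    rw [prod_biUnion (hdisA T), ← prod_mul_distrib, ← prod_sdiff hT, mul_comm]
    congr 1
    · refine prod_congr rfl fun g hg => ?_
      have : g ∉ T := (mem_sdiff.1 hg).2
      simp [this]
    · refine prod_congr rfl fun g hg => ?_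
      simp [hg]
  · intro T
    refine ⟨?_, ?_, ?_, ?_, ?_, ?_⟩
    · exact Dep.prod S fun g hg => ((h1 g hg).2 _).1
    · exact card_biUnion_le_card_mul _ _ _ fun g hg => ((h1 g hg).2 _).2.1
    · intro i hi
      rw [mem_biUnion] at hi ⊢
      obtain ⟨g, hg, hi⟩ := hi
      exact ⟨g, hg, ((h1 g hg).2 _).2.2.1 hi⟩
    · have hc : ∀ c ∈ S.biUnion fun g => A g (decide (g ∈ T)), ∃ g ∈ S,
          c ∈ A g (decide (g ∈ T)) := fun c hc => mem_biUnion.1 hc
      refine ⟨?_, ?_, ?_, ?_, ?_⟩
      · intro c hc'
        obtain ⟨g, hg, h⟩ := hc c hc'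
        have h2 := (((h1 g hg).2 _).2.2.2.1 c h).1
        by_contra hng
        have := vs_small he hng
        omega
      · intro c hc'
        obtain ⟨g, hg, h⟩ := hc c hc'
        obtain ⟨h2, h3, h4, h5, a, b, hk, hab⟩ := ((h1 g hg).2 _).2.2.2.1 c h
        have hgate : C.IsGate c := by
          by_contra hng
          have := vs_small he hng
          omega
        have h6 := hl g a b hk
        have h7 := hS.layer g hg
        rcases hab with rfl | rfl
        · rw [h6.1 hgate, h7]
        · rw [h6.2 hgate, h7]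
      · intro c hc'
        obtain ⟨g, hg, h⟩ := hc c hc'
        exact (((h1 g hg).2 _).2.2.2.1 c h).2.2.1
      · intro c hc'
        obtain ⟨g, hg, h⟩ := hc c hc'
        exact (((h1 g hg).2 _).2.2.2.1 c h).1
      · intro c hc1 c' hc1' hne
        obtain ⟨g, hg, h⟩ := hc c hc1
        obtain ⟨g', hg', h'⟩ := hc c' hc1'
        by_cases hgg : g = g'
        · subst hgg
          exact ((h1 g hg).2 _).2.2.2.2 c h c' h' hne
        · exact disjoint_of_subset_left (((h1 g hg).2 _).2.2.2.1 c h).2.1
            (disjoint_of_subset_right (((h1 g' hg').2 _).2.2.2.1 c' h').2.1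
              (hS.disj g hg g' hg' hgg))
    · intro i hi
      rw [mem_biUnion] at hi ⊢
      obtain ⟨c, hc, hi⟩ := hi
      rw [mem_biUnion] at hc
      obtain ⟨g, hg, hc⟩ := hc
      exact ⟨g, hg, (((h1 g hg).2 _).2.2.2.1 c hc).2.1 hi⟩
    · rw [disjoint_left]
      intro i hi hi'
      rw [mem_biUnion] at hi hi'
      obtain ⟨g, hg, hi⟩ := hi
      obtain ⟨c, hc, hi'⟩ := hi'
      rw [mem_biUnion] at hc
      obtain ⟨g', hg', hc⟩ := hc
      by_cases hgg : g = g'
      · subst hgg
        exact disjoint_left.1 (((h1 g hg).2 _).2.2.2.1 c hc).2.2.2.1 hi hi'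
      · exact disjoint_left.1 (hS.disj g hg g' hg' hgg) (((h1 g hg).2 _).2.2.1 hi)
          ((((h1 g' hg').2 _).2.2.2.1 c hc).2.1 hi')

end Pool.Agent.TH708.Ari
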