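import Mathlib

/-!
# Arithmetic circuits of formal degree one and ranks
-/

set_option autoImplicit false

namespace Pool.Agent.TH708.Ari

open Finset

/-- Arithmetic formulas with fan-in two. -/
inductive Ex (K I : Type) : Type
  | var (i : I)
  | const (c : K)
  | add (F G : Ex K I)
  | mul (F G : Ex K I)

namespace Ex

variable {K I : Type}

/-- The value at a point. -/
def eval [Field K] (z : I → K) : Ex K I → K
  | var i => z i
  | const c => c
  | add F G => eval z F + eval z G
  | mul F G => eval z F * eval z G

/-- The formal degree in the variable `i`: products add, sums take the maximum. -/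
def deg [DecidableEq I] (i : I) : Ex K I → ℕ
  | var j => if j = i then 1 else 0
  | const _ => 0
  | add F G => max (deg i F) (deg i G)
  | mul F G => deg i F + deg i G

end Ex

/-- What a node of a circuit is: a variable, a constant, a sum gate or a product gate. -/
inductive Kind (K I G : Type) : Type
  | var (i : I)
  | const (c : K)
  | add (a b : G)
  | mul (a b : G)

/-- Arithmetic circuits over `K` in the variables `I`: finitely many nodes, wires going down in
`rank`. -/
structure Ckt (K I : Type) where
  /-- nodes -/
  G : Type
  [fin : Fintype G]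
  /-- kinds -/
  kind : G → Kind K I G
  /-- a rank witnessing that there is no cycle -/
  rank : G → ℕ
  add_lt : ∀ g a b, kind g = Kind.add a b → rank a < rank g ∧ rank b < rank g
  mul_lt : ∀ g a b, kind g = Kind.mul a b → rank a < rank g ∧ rank b < rank g
  /-- the output node -/
  out : G

attribute [instance] Ckt.fin

namespace Ckt

variable {K I : Type}

/-- The unfolding of the circuit below the node `g` into a formula. -/
def tree (C : Ckt K I) (g : C.G) : Ex K I :=
  match h : C.kind g with
  | Kind.var i => Ex.var i
  | Kind.const c => Ex.const c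
  | Kind.add a b =>
    have := C.add_lt g a b h
    Ex.add (C.tree a) (C.tree b)
  | Kind.mul a b =>
    have := C.mul_lt g a b h
    Ex.mul (C.tree a) (C.tree b)
termination_by C.rank g
decreasing_by all_goals omega

/-- The number of nodes. -/
def size (C : Ckt K I) : ℕ := Fintype.card C.G

/-- The value of the circuit at a point. -/
def eval [Field K] (C : Ckt K I) (z : I → K) : K := (C.tree C.out).eval z

/-- The formal degree of the circuit in the variable `i`. -/
def deg [DecidableEq I] (C : Ckt K I) (i : I) : ℕ := (C.tree C.out).deg i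

/-- The node is a sum gate or a product gate. -/
def IsGate (C : Ckt K I) (g : C.G) : Prop :=
  ∃ a b, C.kind g = Kind.add a b ∨ C.kind g = Kind.mul a b

/-- The sum and product gates are partitioned into layers so that the gates feeding a gate of a
layer are in the previous layer; variables and constants can be used everywhere; each layer has at
most `w` gates. -/
def Width (C : Ckt K I) (w : ℕ) : Prop :=
  ∃ L : C.G → ℕ, (∀ p a b, (C.kind p = Kind.add a b ∨ C.kind p = Kind.mul a b) →
      (C.IsGate a → L p = L a + 1) ∧ (C.IsGate b → L p = L b + 1)) ∧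
    ∀ (j : ℕ) (T : Finset C.G), (∀ g ∈ T, C.IsGate g ∧ L g = j) → T.card ≤ w

end Ckt

/-- The function depends only on the coordinates in `D`. -/
def Dep {V K : Type} (D : Finset V) (F : (V → Bool) → K) : Prop :=
  ∀ x x' : V → Bool, (∀ i ∈ D, x i = x' i) → F x = F x'

/-- The function is a sum of at most `r` products of a function of the coordinates in `Y` and a
function of the other coordinates. -/
def RkLe {V K : Type} [DecidableEq V] [Fintype V] [Field K] (Y : Finset V) (r : ℕ)
    (F : (V → Bool) → K) : Prop :=
  ∃ (ι : Type) (_ : Fintype ι) (a b : ι → (V → Bool) → K), Fintype.card ι ≤ r ∧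
    (∀ i, Dep Y (a i)) ∧ (∀ i, Dep (univ \ Y) (b i)) ∧ ∀ x, F x = ∑ i, a i x * b i x

/-- The products over a matching between `Y` and its complement have full rank. -/
def T_full : Prop := ∀ (V K : Type) [DecidableEq V] [Fintype V] [Field K] (Y : Finset V)
  (σ : V → V), (∀ y ∈ Y, σ y ∉ Y) → Set.InjOn σ Y → ∀ (c e : K), c ≠ 0 → e ≠ 0 →
  ∀ F : (V → Bool) → K,
    (∀ x, F x = (∏ y ∈ Y, ((if x y = true ∧ x (σ y) = true then 1 else 0) + c)) * e) →
    ∀ r : ℕ, RkLe Y r F → 2 ^ Y.card ≤ r

/-- The permanent and the determinant of a matrix supported by the diagonal and a matching. -/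
def T_match : Prop := ∀ (K : Type) [Field K] (n : ℕ) (Y : Finset (Fin n)) (τ : Fin n → Fin n),
  (∀ i, τ (τ i) = i) → (∀ y ∈ Y, τ y ∉ Y) → (∀ i ∉ Y, τ i ∉ Y → τ i = i) → ∀ d : Fin n → K,
    (Matrix.of fun i j => if i = j then d i else if j = τ i then 1 else 0).permanent =
      (∏ y ∈ Y, (d y * d (τ y) + 1)) * ∏ i ∈ univ.filter (fun i => τ i = i), d i ∧
    (Matrix.of fun i j => if i = j then d i else if j = τ i then 1 else 0).det =
      (∏ y ∈ Y, (d y * d (τ y) - 1)) * ∏ i ∈ univ.filter (fun i => τ i = i), d i

end Pool.Agent.TH708.Ari
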