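import Pool.Agent.TH708.Ari.Path
import Pool.Agent.TH708.Nar.Count

/-!
# Counting half-size sets, arithmetic version
-/

set_option autoImplicit false
set_option linter.unusedSectionVars false

namespace Pool.Agent.TH708.Ari

open Finset Pool.Agent.TH708.Nar

variable {K I V : Type} [Field K] [DecidableEq I] [DecidableEq V] [Fintype V]

/-- The output is of full rank, so it reads everything. -/
theorem vs_out {C : Ckt K I} {e : V → I} {ρ : I → K} (he : Function.Injective e) {k : ℕ}
    (hV : Fintype.card V = 2 * k) {Y : Finset V} (hY : Y.card = k)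
    (hfull : ∀ r, RkLe Y r (val C e ρ C.out) → 2 ^ k ≤ r) : vs C e C.out = univ := by
  rw [eq_univ_iff_forall]
  intro i
  by_contra hi
  have hd := val_dep (C := C) (ρ := ρ) he C.out
  by_cases hiY : i ∈ Y
  · have h1 := hfull _ (hd.rk_left (Y := Y))
    have h2 : (vs C e C.out ∩ Y).card < k := by
      rw [← hY]
      apply card_lt_card
      refine ⟨inter_subset_right, fun h => ?_⟩
      exact hi (mem_inter.1 (h hiY)).1
    have := Nat.pow_lt_pow_right (a := 2) (by norm_num) h2
    omega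
  · have h1 := hfull _ (hd.rk_right (Y := Y))
    have h3 : (univ \ Y).card = k := by
      rw [card_sdiff_of_subset (subset_univ _), card_univ, hV, hY]; omega
    have h2 : (vs C e C.out \ Y).card < k := by
      rw [← h3]
      apply card_lt_card
      refine ⟨sdiff_subset_sdiff (subset_univ _) Subset.rfl, fun h => ?_⟩
      exact hi (mem_sdiff.1 (h (mem_sdiff.2 ⟨mem_univ i, hiY⟩))).1
    have := Nat.pow_lt_pow_right (a := 2) (by norm_num) h2
    omega

theorem path_empty {C : Ckt K I} {e : V → I} {t : ℕ} (ht : 1 ≤ t) {lay : C.G → ℕ}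
    {κ s Δ : ℕ} {Y : Finset V} {S : Finset C.G} (h : Path C e t lay κ s Δ Y C.size S) : S = ∅ := by
  classical
  obtain ⟨G, g1, g2, g3, g4⟩ := h
  by_contra hne
  have hS : (G C.size).Nonempty := by rw [g2]; exact nonempty_iff_ne_empty.2 hne
  have hdown : ∀ d ≤ C.size, (G (C.size - d)).Nonempty := by
    intro d
    induction d with
    | zero => intro _; simpa using hS
    | succ d ih =>
      intro hd
      obtain ⟨g, hg⟩ := ih (by omega)
      have e1 : C.size - d = (C.size - (d + 1)) + 1 := by omega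
      have h1 := (g3 (C.size - d) (by omega)).1.big g hg
      have h2 : (vs C e g).Nonempty := by rw [← card_pos]; omega
      obtain ⟨i, hi⟩ := h2
      have h3 : i ∈ (G (C.size - d)).biUnion (vs C e) := mem_biUnion.2 ⟨g, hg, hi⟩
      rw [e1] at h3
      have h4 := (g4 (C.size - (d + 1)) (by omega)).1 h3
      rw [mem_biUnion] at h4
      obtain ⟨g', hg', _⟩ := h4
      exact ⟨g', hg'⟩
  have h2 : (range (C.size + 1)).card ≤ (univ : Finset C.G).card := by
    apply card_le_card_of_surjOn (fun g => lay g - lay C.out)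
    intro j hj
    rw [mem_coe, mem_range] at hj
    have h5 := hdown (C.size - j) (by omega)
    rw [show C.size - (C.size - j) = j by omega] at h5
    obtain ⟨g, hg⟩ := h5
    refine ⟨g, mem_coe.2 (mem_univ _), ?_⟩
    simp only
    rw [(g3 j (by omega)).1.layer g hg]
    omega
  rw [card_range, card_univ] at h2
  unfold Ckt.size at h2
  omega

open Classical in
theorem path_exists {C : Ckt K I} {e : V → I} {ρ : I → K} (he : Function.Injective e) {k : ℕ}
    (hV : Fintype.card V = 2 * k) {Y : Finset V} (hY : Y.card = k) (t : ℕ) (ht : 2 ≤ t)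
    (htk : t ≤ 2 * k) (lay : C.G → ℕ)
    (hl : ∀ p a b, (C.kind p = Kind.add a b ∨ C.kind p = Kind.mul a b) →
      (C.IsGate a → lay a = lay p + 1) ∧ (C.IsGate b → lay b = lay p + 1)) (κ ν s Δ M : ℕ)
    (hκ : 2 ≤ κ) (hs : 2 * (ν + 1) ≤ s) (hΔ : κ * (2 * t) + s ≤ Δ)
    (hbad : ∀ j (S : Finset C.G), State C e t lay (lay C.out + j) S → κ ≤ S.card →
      ∃ g ∈ S, ¬ Near s (vs C e g) Y)
    (hM : ∀ j, ((univ : Finset (Finset C.G)).filter fun S =>
      State C e t lay (lay C.out + j) S ∧ S.card < κ).card ≤ M)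
    (hok : Ok C e C.out) (hcount : C.size * (M * 2 ^ κ) ≤ 2 ^ ν) (hνk : ν + 1 ≤ k)
    (hfull : ∀ r, RkLe Y r (val C e ρ C.out) → 2 ^ k ≤ r) :
    Path C e t lay κ s Δ Y C.size ∅ := by
  have hout := vs_out he hV hY hfull
  have hn : (univ : Finset V).card = 2 * k := by rw [card_univ, hV]
  have h0 : Path C e t lay κ s Δ Y 0 {C.out} := by
    refine ⟨fun _ => {C.out}, rfl, rfl, fun i hi => ?_, fun i hi => absurd hi (Nat.not_lt_zero _)⟩
    have : i = 0 := by omega
    subst this
    refine ⟨⟨?_, ?_, ?_, ?_, ?_⟩, by rw [card_singleton]; omega, ?_⟩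
    · intro g hg
      rw [mem_singleton] at hg
      subst hg
      by_contra h
      have := vs_small he h
      rw [hout, hn] at this
      omega
    · intro g hg
      rw [mem_singleton] at hg
      rw [hg]; rfl
    · intro g hg
      rw [mem_singleton] at hg
      rw [hg]; exact hok
    · intro g hg
      rw [mem_singleton] at hg
      rw [hg, hout, hn]; exact htk
    · intro g hg g' hg' hne
      rw [mem_singleton] at hg hg'
      exact absurd (hg.trans hg'.symm) hne
    · intro g hg
      rw [mem_singleton] at hg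
      rw [hg, hout]
      unfold Near
      rw [univ_inter, hY, hn]
      omega
  by_contra hcon
  obtain ⟨P, E, e1, e2, e3⟩ := forward (ρ := ρ) he hV t ht lay hl κ ν s Δ M hs hΔ hbad hM h0 C.size
  have hempty : (univ : Finset (Finset C.G)).filter (fun S => Path C e t lay κ s Δ Y C.size S) =
      ∅ := by
    rw [filter_eq_empty_iff]
    intro S _ hS
    have := path_empty (by omega) hS
    rw [this] at hS
    exact hcon hS
  have h1 : val C e ρ C.out = E := by
    funext x
    rw [e1 x, hempty, sum_empty, zero_add]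
  have h2 := hfull _ (h1 ▸ e3)
  have h3 : C.size * (M * 2 ^ κ) * 2 ^ (k - ν - 1) ≤ 2 ^ ν * 2 ^ (k - ν - 1) :=
    Nat.mul_le_mul_right _ hcount
  have h4 : 2 ^ ν * 2 ^ (k - ν - 1) = 2 ^ (k - 1) := by
    rw [← pow_add]; congr 1; omega
  have h5 : 2 ^ (k - 1) < 2 ^ k := Nat.pow_lt_pow_right (by norm_num) (by omega)
  omega

open Classical in
/-- Sets nearly balanced on many parts of one layer. -/
noncomputable def BadSets {ι : Type} (D : ι → Finset V) (N : Finset ι) (t τ κ : ℕ) :
    Finset (Finset V) :=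
  univ.filter fun Y => ∃ S ⊆ N, S.card = κ ∧
    (∀ a ∈ S, ∀ b ∈ S, a ≠ b → Disjoint (D a) (D b)) ∧
    ∀ a ∈ S, t ≤ (D a).card ∧ Near (2 * τ) (D a) Y

theorem mem_bad {ι : Type} {D : ι → Finset V} {N : Finset ι} {t τ κ : ℕ} {Y : Finset V} :
    Y ∈ BadSets D N t τ κ ↔ ∃ S ⊆ N, S.card = κ ∧
      (∀ a ∈ S, ∀ b ∈ S, a ≠ b → Disjoint (D a) (D b)) ∧
      ∀ a ∈ S, t ≤ (D a).card ∧ Near (2 * τ) (D a) Y := by
  classical
  unfold BadSets
  simp only [mem_filter, mem_univ, true_and]

theorem bad_card {ι : Type} (D : ι → Finset V) (N : Finset ι) (t τ κ w : ℕ)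
    (ht : 16 * τ ^ 4 ≤ t) (hN : N.card ≤ w) :
    (BadSets D N t τ κ).card * (2 * τ) ^ κ ≤ w ^ κ * 2 ^ Fintype.card V := by
  classical
  have hsub : BadSets D N t τ κ ⊆
      ((N.powersetCard κ).filter fun S => (∀ a ∈ S, ∀ b ∈ S, a ≠ b →
        Disjoint (D a) (D b)) ∧ ∀ a ∈ S, t ≤ (D a).card).biUnion fun S =>
          (univ : Finset V).powerset.filter fun Y => ∀ a ∈ S, Near (2 * τ) (D a) Y := by
    intro Y hY
    rw [BadSets, mem_filter] at hY
    obtain ⟨_, S, h1, h2, h3, h4⟩ := hY
    rw [mem_biUnion]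
    refine ⟨S, ?_, ?_⟩
    · rw [mem_filter, mem_powersetCard]
      exact ⟨⟨h1, h2⟩, h3, fun a ha => (h4 a ha).1⟩
    · rw [mem_filter, mem_powerset]
      exact ⟨subset_univ _, fun a ha => (h4 a ha).2⟩
  have h1 := (card_le_card hsub).trans card_biUnion_le
  refine (Nat.mul_le_mul_right _ h1).trans ?_
  rw [sum_mul]
  refine (sum_le_card_nsmul _ _ (2 ^ Fintype.card V) ?_).trans ?_
  · intro S hS
    rw [mem_filter, mem_powersetCard] at hS
    have h2 := many_near τ t ht D S hS.2.1 hS.2.2 univ (fun a _ => subset_univ _)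
    rw [hS.1.2, card_univ] at h2
    refine le_trans (le_of_eq ?_) h2
    congr!
  · rw [smul_eq_mul]
    apply Nat.mul_le_mul_right
    refine (card_filter_le _ _).trans ?_
    rw [card_powersetCard]
    exact (Nat.choose_le_pow _ _).trans (Nat.pow_le_pow_left hN _)

/-- **Counting.** -/
theorem count (C : Ckt K I) (e : V → I) (he : Function.Injective e) (k w : ℕ)
    (hV : Fintype.card V = 2 * k) (hk : 1 ≤ k) (lay : C.G → ℕ)
    (hl : ∀ p a b, (C.kind p = Kind.add a b ∨ C.kind p = Kind.mul a b) →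
      (C.IsGate a → lay a = lay p + 1) ∧ (C.IsGate b → lay b = lay p + 1))
    (hw : ∀ (j : ℕ) (T : Finset C.G), (∀ g ∈ T, C.IsGate g ∧ lay g = j) → T.card ≤ w)
    (hok : Ok C e C.out)
    (hS : ∀ Y : Finset V, Y.card = k → ∃ ρ : I → K, ∀ r, RkLe Y r (val C e ρ C.out) → 2 ^ k ≤ r)
    (s ν τ t κ B M μ R : ℕ) (hcount : C.size * (M * 2 ^ κ) ≤ 2 ^ ν) (hνk : ν + 1 ≤ k)
    (hs : 2 * (ν + 1) ≤ s) (hκ : κ * s + 1 ≤ τ) (hκ1 : 2 ≤ κ)
    (ht : 16 * τ ^ 4 ≤ t) (htk : t ≤ 2 * k) (hM : (w + 1) ^ κ ≤ M)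
    (hΛ : 2 ≤ Real.log (2 * τ)) (hμ : κ * (2 * t) + s ≤ μ) (hμ0 : 0 < μ) (hBt : 8 * (B * t) ≤ μ)
    (hBM : (B : ℝ) * (M ^ 2 * Real.exp (-(Real.log (2 * τ) / 8))) ≤ 1) (hR : C.size ≤ B ^ R) :
    (1 : ℝ) ≤ 2 * k * (C.size * ((w : ℝ) ^ κ / (2 * τ) ^ κ) +
      Real.exp (-(Real.log (2 * τ) * max (1 : ℝ) ((2 * k) / (μ * 2 ^ R))))) := by
  classical
  set N : ℕ → Finset C.G := fun l => univ.filter fun g => C.IsGate g ∧ lay g = l with hN
  have hNw : ∀ l, (N l).card ≤ w := by
    intro l
    apply hw l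
    intro g hg
    rw [hN] at hg
    simp only [mem_filter] at hg
    exact hg.2
  have hNmem : ∀ (l : ℕ) (S : Finset C.G), State C e t lay l S → S ⊆ N l := by
    intro l S h g hg
    rw [hN]
    simp only [mem_filter, mem_univ, true_and]
    exact ⟨h.gate g hg, h.layer g hg⟩
  set F : ℕ → Finset (Finset V) := fun j =>
    ((N (lay C.out + (C.size - j))).powerset.filter fun S => S.card ≤ κ).image
      fun S => S.biUnion (vs C e) with hF
  have hsub : ∀ l, ((N l).powerset.filter fun S => S.card ≤ κ).card ≤ M := by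
    intro l
    refine (small_subsets _ _).trans ((Nat.pow_le_pow_left ?_ _).trans hM)
    have := hNw l
    omega
  have hFM : ∀ j, (F j).card ≤ M := fun j => card_image_le.trans (hsub _)
  have hτ1 : 1 ≤ τ := by omega
  have ht1 : 2 ≤ t := by
    have h1 : 1 ≤ τ ^ 4 := Nat.one_le_pow _ _ hτ1
    omega
  have hs1 : 0 < s := by omega
  have hsκ : s ≤ κ * s := Nat.le_mul_of_pos_left s (by omega)
  -- every set of size `k` is bad or has a chain
  have hcover : (univ : Finset V).powersetCard k ⊆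
      ((univ : Finset C.G).biUnion fun g => BadSets (vs C e) (N (lay g)) t τ κ) ∪
        Ch F (κ * (2 * t) + s) (2 * τ) 0 C.size ∅ univ := by
    intro Y hY
    rw [mem_powersetCard] at hY
    rw [mem_union]
    by_cases hbig : ∃ j, ∃ S : Finset C.G, State C e t lay (lay C.out + j) S ∧ κ ≤ S.card ∧
        ∀ g ∈ S, Near s (vs C e g) Y
    · left
      obtain ⟨j, S, h1, h2, h3⟩ := hbig
      obtain ⟨T, hT1, hT2⟩ := exists_subset_card_eq h2
      have hTne : T.Nonempty := by rw [← card_pos]; omega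
      obtain ⟨g0, hg0⟩ := hTne
      rw [mem_biUnion]
      refine ⟨g0, mem_univ _, ?_⟩
      rw [mem_bad]
      refine ⟨T, ?_, hT2, ?_, ?_⟩
      · rw [h1.layer g0 (hT1 hg0)]
        exact hT1.trans (hNmem _ _ h1)
      · intro a ha b hb hab
        exact h1.disj a (hT1 ha) b (hT1 hb) hab
      · intro a ha
        exact ⟨h1.big a (hT1 ha), (h3 a (hT1 ha)).mono (by omega)⟩
    · right
      push Not at hbig
      obtain ⟨ρ, hfull⟩ := hS Y hY.2
      obtain ⟨G, g1, g2, g3, g4⟩ := path_exists (ρ := ρ) he hV hY.2 t ht1 htk lay hl κ ν s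
        (κ * (2 * t) + s) M hκ1 hs le_rfl hbig (fun j => by
          refine le_trans (card_le_card ?_) (hsub (lay C.out + j))
          intro S hS'
          rw [mem_filter] at hS'
          rw [mem_filter, mem_powerset]
          exact ⟨hNmem _ _ hS'.2.1, hS'.2.2.le⟩) hok hcount hνk hfull
      have hout := vs_out he hV hY.2 hfull
      rw [Ch, mem_filter]
      refine ⟨by rw [sdiff_empty, mem_powerset]; exact subset_univ _, ?_⟩
      refine ⟨fun j => (G (C.size - j)).biUnion (vs C e), ?_, ?_, ?_, ?_, ?_⟩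
      · simp [g2]
      · simp [g1, hout]
      · intro j _ _
        rw [hF]
        simp only [mem_image, mem_filter, mem_powerset]
        have h3 := g3 (C.size - j) (Nat.sub_le _ _)
        exact ⟨G (C.size - j), ⟨hNmem _ _ h3.1, h3.2.1.le⟩, rfl⟩
      · intro j _ hj
        have e1 : C.size - j = (C.size - (j + 1)) + 1 := by omega
        simp only
        rw [e1]
        exact g4 _ (by omega)
      · intro i j _ hij hj
        simp only
        have hmono : ∀ d m, m + d ≤ C.size →
            (G (m + d)).biUnion (vs C e) ⊆ (G m).biUnion (vs C e) := by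
          intro d
          induction d with
          | zero => intro m _; exact Subset.rfl
          | succ d ih => intro m hm; exact ((g4 (m + d) (by omega)).1).trans (ih m (by omega))
        have hA : (G (C.size - i)).biUnion (vs C e) ⊆ (G (C.size - j)).biUnion (vs C e) := by
          have := hmono (j - i) (C.size - j) (by omega)
          rwa [show C.size - j + (j - i) = C.size - i by omega] at this
        have hnear : ∀ m ≤ C.size, Near τ ((G m).biUnion (vs C e)) Y := by
          intro m hm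
          have h3 := g3 m hm
          have := near_biUnion (G m) h3.1.disj h3.2.2
          refine this.mono (le_trans ?_ hκ)
          have := Nat.mul_le_mul_right s h3.2.1.le
          omega
        have := near_sdiff hA (hnear _ (Nat.sub_le _ _)) (hnear _ (Nat.sub_le _ _))
        rw [← two_mul] at this
        exact this
  have hc1 : ((univ : Finset V).powersetCard k).card = k.centralBinom := by
    rw [card_powersetCard, card_univ, hV, Nat.centralBinom]
  have hc2 := Nat.four_pow_le_two_mul_self_mul_centralBinom k (by omega)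
  rw [← hc1] at hc2
  have hc3 := (card_le_card hcover).trans ((card_union_le _ _).trans
    (Nat.add_le_add_right card_biUnion_le _))
  -- real inequalities
  have hτ0 : (0 : ℝ) < (2 * τ) ^ κ := by
    have : (0 : ℝ) < τ := by exact_mod_cast (by omega : 0 < τ)
    positivity
  have hb : ∀ g ∈ (univ : Finset C.G), ((BadSets (vs C e) (N (lay g)) t τ κ).card : ℝ) ≤
      4 ^ k * ((w : ℝ) ^ κ / (2 * τ) ^ κ) := by
    intro g _
    have h := bad_card (vs C e) (N (lay g)) t τ κ w ht (hNw _)
    rw [hV, pow_mul] at h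
    have h' : ((BadSets (vs C e) (N (lay g)) t τ κ).card : ℝ) * (2 * τ) ^ κ ≤
        (w : ℝ) ^ κ * 4 ^ k := by
      have h6 : (BadSets (vs C e) (N (lay g)) t τ κ).card * (2 * τ) ^ κ ≤ w ^ κ * 4 ^ k := by
        norm_num at h; exact h
      exact_mod_cast h6
    rw [← mul_div_assoc, le_div_iff₀ hτ0]
    linarith
  have hchain := ch_card (F := F) (Δ := κ * (2 * t) + s) τ t B M μ ht (by omega) hμ0 hΛ hFM hμ
    hBt hBM R 0 C.size (Nat.zero_le _) (by omega) ∅ univ (empty_subset _) (by
      rw [sdiff_empty, card_univ]; omega)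
  rw [sdiff_empty, card_univ, hV] at hchain
  have h4k : (2 : ℝ) ^ (2 * k) = 4 ^ k := by rw [pow_mul]; norm_num
  rw [h4k] at hchain
  push_cast at hchain
  have hc4 : ((((univ : Finset V).powersetCard k).card : ℕ) : ℝ) ≤
      C.size * (4 ^ k * ((w : ℝ) ^ κ / (2 * τ) ^ κ)) + 4 ^ k *
        Real.exp (-(Real.log (2 * τ) * max (1 : ℝ) ((2 * k) / (μ * 2 ^ R)))) := by
    have h6 : ((((univ : Finset V).powersetCard k).card : ℕ) : ℝ) ≤
        (∑ g ∈ (univ : Finset C.G), ((BadSets (vs C e) (N (lay g)) t τ κ).card : ℝ)) +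
          ((Ch F (κ * (2 * t) + s) (2 * τ) 0 C.size ∅ univ).card : ℝ) := by
      exact_mod_cast hc3
    refine h6.trans (add_le_add ?_ hchain)
    refine (sum_le_card_nsmul _ _ _ hb).trans (le_of_eq ?_)
    rw [card_univ, nsmul_eq_mul]
    rfl
  have hc5 : (4 : ℝ) ^ k ≤ 2 * k * ((((univ : Finset V).powersetCard k).card : ℕ) : ℝ) := by
    exact_mod_cast hc2
  have hk0 : (0 : ℝ) ≤ 2 * k := by positivity
  have hc6 := hc5.trans (mul_le_mul_of_nonneg_left hc4 hk0)
  have h4 : (0 : ℝ) < 4 ^ k := by positivity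
  have hc7 : (4 : ℝ) ^ k * 1 ≤ 4 ^ k * (2 * k * (C.size * ((w : ℝ) ^ κ / (2 * τ) ^ κ) +
      Real.exp (-(Real.log (2 * τ) * max (1 : ℝ) ((2 * k) / (μ * 2 ^ R)))))) := by
    rw [mul_one]
    refine hc6.trans (le_of_eq ?_)
    ring
  exact le_of_mul_le_mul_left hc7 h4

end Pool.Agent.TH708.Ari
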