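import Pool.Agent.TH708.Ari.Sem

/-!
# A chain of states halved by `Y`
-/

set_option autoImplicit false
set_option linter.unusedSectionVars false

namespace Pool.Agent.TH708.Ari

open Finset Pool.Agent.TH708.Nar

variable {K I V : Type} [Field K] [DecidableEq I] [DecidableEq V] [Fintype V]

/-- A chain of good states from the output down. -/
def Path (C : Ckt K I) (e : V → I) (t : ℕ) (lay : C.G → ℕ) (κ s Δ : ℕ) (Y : Finset V) (j : ℕ)
    (S : Finset C.G) : Prop :=
  ∃ G : ℕ → Finset C.G, G 0 = {C.out} ∧ G j = S ∧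
    (∀ i ≤ j, State C e t lay (lay C.out + i) (G i) ∧ (G i).card < κ ∧
      ∀ g ∈ G i, Near s (vs C e g) Y) ∧
    ∀ i < j, (G (i + 1)).biUnion (vs C e) ⊆ (G i).biUnion (vs C e) ∧
      ((G i).biUnion (vs C e) \ (G (i + 1)).biUnion (vs C e)).card ≤ Δ

theorem Path.snoc {C : Ckt K I} {e : V → I} {t : ℕ} {lay : C.G → ℕ} {κ s Δ : ℕ} {Y : Finset V}
    {j : ℕ} {S S' : Finset C.G} (h : Path C e t lay κ s Δ Y j S)
    (h1 : State C e t lay (lay C.out + (j + 1)) S') (h2 : S'.card < κ)
    (h3 : ∀ g ∈ S', Near s (vs C e g) Y)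
    (h4 : S'.biUnion (vs C e) ⊆ S.biUnion (vs C e))
    (h5 : (S.biUnion (vs C e) \ S'.biUnion (vs C e)).card ≤ Δ) :
    Path C e t lay κ s Δ Y (j + 1) S' := by
  obtain ⟨G, g1, g2, g3, g4⟩ := h
  refine ⟨fun i => if i ≤ j then G i else S', by simp [g1], by simp, ?_, ?_⟩
  · intro i hi
    by_cases hij : i ≤ j
    · simp only [hij, if_true]; exact g3 i hij
    · have : i = j + 1 := by omega
      subst this
      simp only [hij, if_false]
      exact ⟨h1, h2, h3⟩
  · intro i hi
    by_cases hij : i + 1 ≤ j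
    · have : i ≤ j := by omega
      simp only [hij, this, if_true]
      exact g4 i (by omega)
    · have : i = j := by omega
      subst this
      simp only [hij, le_refl, if_true, if_false]
      rw [g2]
      exact ⟨h4, h5⟩

theorem card_biUnion_vs {C : Ckt K I} {e : V → I} {t : ℕ} {lay : C.G → ℕ} {j : ℕ}
    {S : Finset C.G} (h : State C e t lay j S) :
    ∑ g ∈ S, (vs C e g).card = (S.biUnion (vs C e)).card :=
  (card_biUnion fun g hg g' hg' hne => h.disj g hg g' hg' hne).symm

open Classical in
theorem forward {C : Ckt K I} {e : V → I} {ρ : I → K} (he : Function.Injective e) {k : ℕ}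
    (hV : Fintype.card V = 2 * k) {Y : Finset V} (t : ℕ) (ht : 2 ≤ t) (lay : C.G → ℕ)
    (hl : ∀ p a b, (C.kind p = Kind.add a b ∨ C.kind p = Kind.mul a b) →
      (C.IsGate a → lay a = lay p + 1) ∧ (C.IsGate b → lay b = lay p + 1)) (κ ν s Δ M : ℕ)
    (hs : 2 * (ν + 1) ≤ s) (hΔ : κ * (2 * t) + s ≤ Δ)
    (hbad : ∀ j (S : Finset C.G), State C e t lay (lay C.out + j) S → κ ≤ S.card →
      ∃ g ∈ S, ¬ Near s (vs C e g) Y)
    (hM : ∀ j, ((univ : Finset (Finset C.G)).filter fun S =>
      State C e t lay (lay C.out + j) S ∧ S.card < κ).card ≤ M)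
    (h0 : Path C e t lay κ s Δ Y 0 {C.out}) (j : ℕ) :
    ∃ (P : Finset C.G → (V → Bool) → K) (E : (V → Bool) → K),
      (∀ x, val C e ρ C.out x = ∑ S ∈ univ.filter (fun S => Path C e t lay κ s Δ Y j S),
        P S x * ∏ g ∈ S, val C e ρ g x + E x) ∧
      (∀ S, Path C e t lay κ s Δ Y j S → Dep (univ \ S.biUnion (vs C e)) (P S)) ∧
      RkLe Y (j * (M * 2 ^ κ) * 2 ^ (k - ν - 1)) E := by
  induction j with
  | zero =>
    refine ⟨fun _ _ => 1, fun _ => 0, ?_, fun _ _ _ _ _ => rfl, ?_⟩
    · intro x
      have : (univ.filter fun S => Path C e t lay κ s Δ Y 0 S) = {{C.out}} := by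
        ext S
        simp only [mem_filter, mem_univ, true_and, mem_singleton]
        constructor
        · rintro ⟨G, g1, g2, _⟩
          rw [← g1, ← g2]
        · rintro rfl; exact h0
      rw [this, sum_singleton, prod_singleton]
      simp
    · simpa using rk_zero
  | succ j ih =>
    obtain ⟨P, E, e1, e2, e3⟩ := ih
    set Ps := (univ : Finset (Finset C.G)).filter (fun S => Path C e t lay κ s Δ Y j S) with hPs
    have hexp : ∀ S : Finset C.G, ∃ (r : Finset C.G → (V → Bool) → K)
        (R : Finset C.G → Finset V) (A : Finset C.G → Finset C.G),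
        Path C e t lay κ s Δ Y j S →
        (∀ x, ∏ g ∈ S, val C e ρ g x = ∑ T ∈ S.powerset, r T x * ∏ c ∈ A T, val C e ρ c x) ∧
        ∀ T, Dep (R T) (r T) ∧ (R T).card ≤ S.card * (2 * t) ∧ R T ⊆ S.biUnion (vs C e) ∧
          State C e t lay (lay C.out + j + 1) (A T) ∧
          (A T).biUnion (vs C e) ⊆ S.biUnion (vs C e) ∧
          Disjoint (R T) ((A T).biUnion (vs C e)) := by
      intro S
      by_cases hS : Path C e t lay κ s Δ Y j S
      · obtain ⟨G, g1, g2, g3, g4⟩ := id hS
        have hst := (g3 j le_rfl).1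
        rw [g2] at hst
        obtain ⟨r, R, A, h1, h2⟩ := one_layer (ρ := ρ) he t ht lay hl hst
        refine ⟨r, R, A, fun _ => ⟨h1, fun T => ?_⟩⟩
        obtain ⟨q1, q2, q3, q4, q5, q6⟩ := h2 T
        refine ⟨q1, q2, q3, q4, ?_, ?_⟩
        · convert q5
        · convert q6
      · exact ⟨fun _ _ => 0, fun _ => ∅, fun _ => ∅, fun h => absurd h hS⟩
    choose r R A hA using hexp
    -- pairs
    set Q := Ps.sigma (fun S => S.powerset) with hQ
    set good : (Σ _ : Finset C.G, Finset C.G) → Prop := fun p => (A p.1 p.2).card < κ ∧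
      (∀ g ∈ A p.1 p.2, Near s (vs C e g) Y) ∧
      (p.1.biUnion (vs C e) \ (A p.1 p.2).biUnion (vs C e)).card ≤ Δ with hgood
    have hQmem : ∀ p ∈ Q, Path C e t lay κ s Δ Y j p.1 := by
      intro p hp
      rw [hQ, mem_sigma, hPs, mem_filter] at hp
      exact hp.1.2
    have hgoodPath : ∀ p ∈ Q.filter good, Path C e t lay κ s Δ Y (j + 1) (A p.1 p.2) := by
      intro p hp
      rw [mem_filter] at hp
      have h1 := hQmem p hp.1
      have h2 := ((hA p.1 h1).2 p.2)
      exact h1.snoc (by rw [← add_assoc]; exact h2.2.2.2.1) hp.2.1 hp.2.2.1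
        h2.2.2.2.2.1 hp.2.2.2
    refine ⟨fun S' x => ∑ p ∈ (Q.filter good).filter (fun p => A p.1 p.2 = S'),
        P p.1 x * r p.1 p.2 x, fun x => ∑ p ∈ Q.filter (fun p => ¬ good p),
        (P p.1 x * r p.1 p.2 x) * ∏ c ∈ A p.1 p.2, val C e ρ c x + E x, ?_, ?_, ?_⟩
    · intro x
      rw [e1 x, ← add_assoc]
      congr 1
      have s1 : ∑ S ∈ Ps, P S x * ∏ g ∈ S, val C e ρ g x =
          ∑ p ∈ Q, (P p.1 x * r p.1 p.2 x) * ∏ c ∈ A p.1 p.2, val C e ρ c x := by
        rw [hQ, sum_sigma]
        refine sum_congr rfl fun S hS => ?_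
        rw [hPs, mem_filter] at hS
        rw [(hA S hS.2).1 x, mul_sum]
        refine sum_congr rfl fun T _ => ?_
        ring
      rw [s1, ← sum_filter_add_sum_filter_not Q good]
      congr 1
      rw [← sum_fiberwise_of_maps_to (t := univ.filter fun S => Path C e t lay κ s Δ Y (j + 1) S)
        (g := fun p => A p.1 p.2)]
      · refine sum_congr rfl fun S' _ => ?_
        rw [sum_mul]
        refine sum_congr rfl fun p hp => ?_
        rw [mem_filter] at hp
        rw [hp.2]
      · intro p hp
        rw [mem_filter]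
        exact ⟨mem_univ _, hgoodPath p hp⟩
    · intro S' _
      apply Dep.sum
      intro p hp
      rw [mem_filter, mem_filter] at hp
      have h1 := hQmem p hp.1.1
      have h2 := ((hA p.1 h1).2 p.2)
      refine ((e2 p.1 h1).mul h2.1).mono ?_
      intro i hi
      rw [mem_sdiff]
      refine ⟨mem_univ _, fun hi' => ?_⟩
      rw [← hp.2] at hi'
      rw [mem_union, mem_sdiff] at hi
      rcases hi with hi | hi
      · exact hi.2 (h2.2.2.2.2.1 hi')
      · exact disjoint_left.1 h2.2.2.2.2.2 hi hi'
    · have hcard : (Q.filter (fun p => ¬ good p)).card ≤ M * 2 ^ κ := by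
        refine (card_filter_le _ _).trans ?_
        rw [hQ, card_sigma]
        refine (sum_le_card_nsmul _ _ (2 ^ κ) ?_).trans ?_
        · intro S hS
          rw [hPs, mem_filter] at hS
          obtain ⟨G, g1, g2, g3, g4⟩ := hS.2
          have := (g3 j le_rfl).2.1
          rw [g2] at this
          rw [card_powerset]
          exact Nat.pow_le_pow_right (by norm_num) this.le
        · rw [smul_eq_mul]
          apply Nat.mul_le_mul_right
          refine le_trans (card_le_card ?_) (hM j)
          intro S hS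
          rw [hPs, mem_filter] at hS
          obtain ⟨G, g1, g2, g3, g4⟩ := hS.2
          have := g3 j le_rfl
          rw [g2] at this
          rw [mem_filter]
          exact ⟨mem_univ _, this.1, this.2.1⟩
      have hterm : ∀ p ∈ Q.filter (fun p => ¬ good p), RkLe Y (2 ^ (k - ν - 1)) (fun x =>
          (P p.1 x * r p.1 p.2 x) * ∏ c ∈ A p.1 p.2, val C e ρ c x) := by
        intro p hp
        rw [mem_filter] at hp
        have h1 := hQmem p hp.1
        obtain ⟨q1, q2, q3, q4, q5, q6⟩ := (hA p.1 h1).2 p.2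
        have hPd := e2 p.1 h1
        have hS : State C e t lay (lay C.out + j) p.1 ∧ p.1.card < κ := by
          obtain ⟨G, g1, g2, g3, g4⟩ := h1
          have := g3 j le_rfl
          rw [g2] at this
          exact ⟨this.1, this.2.1⟩
        obtain ⟨a2, b1, b2, b3⟩ := rk_prod (Y := Y) (A p.1 p.2) (D := vs C e)
          (F := val C e ρ) (fun g _ => val_dep he g)
        rw [card_biUnion_vs q4] at b2 b3
        have hn : (univ : Finset V).card = 2 * k := by rw [card_univ, hV]
        by_cases hbadst : κ ≤ (A p.1 p.2).card ∨ ∃ g ∈ A p.1 p.2, ¬ Near s (vs C e g) Y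
        · have hnn : ∃ g ∈ A p.1 p.2, ¬ Near s (vs C e g) Y := by
            rcases hbadst with h | h
            · exact hbad (j + 1) _ (by rw [← add_assoc]; exact q4) h
            · exact h
          have b4 := b3 s hnn
          have hd : Dep (univ \ (A p.1 p.2).biUnion (vs C e)) (fun x => P p.1 x * r p.1 p.2 x) := by
            refine (hPd.mul q1).mono ?_
            intro i hi
            rw [mem_sdiff]
            refine ⟨mem_univ _, fun hi' => ?_⟩
            rw [mem_union, mem_sdiff] at hi
            rcases hi with hi | hi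
            · exact hi.2 (q5 hi')
            · exact disjoint_left.1 q6 hi hi'
          obtain ⟨a0, c1, c2, _⟩ := hd.rk_half (Y := Y)
          have h5 := c1.mul b1
          rw [← pow_add] at h5
          refine h5.mono (Nat.pow_le_pow_right (by norm_num) ?_)
          have h6 := card_sdiff_add_card_eq_card (subset_univ ((A p.1 p.2).biUnion (vs C e)))
          rw [hn] at h6
          omega
        · push Not at hbadst
          have hstep : Δ < (p.1.biUnion (vs C e) \ (A p.1 p.2).biUnion (vs C e)).card := by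
            by_contra hc
            push Not at hc
            exact hp.2 ⟨hbadst.1, hbadst.2, hc⟩
          obtain ⟨a0, c1, c2, _⟩ := hPd.rk_half (Y := Y)
          obtain ⟨a1, d1, d2, _⟩ := q1.rk_half (Y := Y)
          have h5 := (c1.mul d1).mul b1
          rw [← pow_add, ← pow_add] at h5
          refine h5.mono (Nat.pow_le_pow_right (by norm_num) ?_)
          have h6 := card_sdiff_add_card_eq_card (subset_univ (p.1.biUnion (vs C e)))
          have h7 := card_sdiff_add_card_eq_card q5
          rw [hn] at h6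
          have h8 : p.1.card * (2 * t) ≤ κ * (2 * t) := Nat.mul_le_mul_right _ hS.2.le
          omega
      have hsum := (RkLe.sum _ hterm).add e3
      refine hsum.mono ?_
      have := Nat.mul_le_mul_right (2 ^ (k - ν - 1)) hcard
      have h9 : (j + 1) * (M * 2 ^ κ) * 2 ^ (k - ν - 1) =
          M * 2 ^ κ * 2 ^ (k - ν - 1) + j * (M * 2 ^ κ) * 2 ^ (k - ν - 1) := by ring
      rw [h9]
      omega

end Pool.Agent.TH708.Ari
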