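import Pool.Agent.TH708.Ari.Num
import Pool.Agent.TH444.J1115
import Pool.Agent.TH444.J1116

/-!
# Permanent and determinant
-/

set_option autoImplicit false
set_option linter.unusedSectionVars false

namespace Pool.Agent.TH708.Ari

open Finset

variable {K : Type} [Field K] {n : ℕ}

/-- On matrices with entries `0` and `1` the circuit computes the permanent. -/
def ComputesPer (C : Ckt K (Fin n × Fin n)) : Prop :=
  ∀ z : Fin n × Fin n → K, (∀ p, z p = 0 ∨ z p = 1) →
    C.eval z = (Matrix.of fun i j => z (i, j)).permanent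

/-- On matrices with entries `0` and `1` the circuit computes the determinant. -/
def ComputesDet (C : Ckt K (Fin n × Fin n)) : Prop :=
  ∀ z : Fin n × Fin n → K, (∀ p, z p = 0 ∨ z p = 1) →
    C.eval z = (Matrix.of fun i j => z (i, j)).det

/-- A matching between a half and its complement. -/
theorem exists_invol (W : Finset (Fin n)) (Y : Finset ↥W) (hY : 2 * Y.card = W.card) :
    ∃ (σ : ↥W → ↥W) (τ : Fin n → Fin n), (∀ y ∈ Y, σ y ∉ Y) ∧ Set.InjOn σ Y ∧
      (∀ i, τ (τ i) = i) ∧ (∀ i : ↥W, τ i.1 = (σ i).1) ∧ (∀ i, τ i = i ↔ i ∉ W) ∧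
      (∀ i : ↥W, i ∉ Y → σ i ∈ Y) := by
  classical
  have hc : Y.card = (univ \ Y).card := by
    rw [card_sdiff_of_subset (subset_univ _), card_univ, Fintype.card_coe]
    omega
  let φ : ↥Y ≃ ↥(univ \ Y) := Finset.equivOfCardEq hc
  let σ : ↥W → ↥W := fun v => if h : v ∈ Y then (φ ⟨v, h⟩).1 else
    (φ.symm ⟨v, mem_sdiff.2 ⟨mem_univ _, h⟩⟩).1
  have h1 : ∀ y ∈ Y, σ y ∉ Y := by
    intro y hy
    simp only [σ, hy, dite_true]
    exact (mem_sdiff.1 (φ ⟨y, hy⟩).2).2
  have h2 : ∀ y, y ∉ Y → σ y ∈ Y := by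
    intro y hy
    simp only [σ, hy, dite_false]
    exact (φ.symm _).2
  have h3 : ∀ y, σ (σ y) = y := by
    intro y
    by_cases hy : y ∈ Y
    · have h4 := h1 y hy
      have h5 : σ y = (φ ⟨y, hy⟩).1 := by simp only [σ, hy, dite_true]
      have h6 : σ (σ y) = (φ.symm ⟨σ y, mem_sdiff.2 ⟨mem_univ _, h4⟩⟩).1 := by
        show (if h : σ y ∈ Y then (φ ⟨σ y, h⟩).1 else
          (φ.symm ⟨σ y, mem_sdiff.2 ⟨mem_univ _, h⟩⟩).1) = _
        rw [dif_neg h4]
      rw [h6]
      have h7 : (⟨σ y, mem_sdiff.2 ⟨mem_univ _, h4⟩⟩ : ↥(univ \ Y)) = φ ⟨y, hy⟩ :=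
        Subtype.ext h5
      rw [h7, Equiv.symm_apply_apply]
    · have h4 := h2 y hy
      have h5 : σ y = (φ.symm ⟨y, mem_sdiff.2 ⟨mem_univ _, hy⟩⟩).1 := by
        simp only [σ, hy, dite_false]
      have h6 : σ (σ y) = (φ ⟨σ y, h4⟩).1 := by
        show (if h : σ y ∈ Y then (φ ⟨σ y, h⟩).1 else
          (φ.symm ⟨σ y, mem_sdiff.2 ⟨mem_univ _, h⟩⟩).1) = _
        rw [dif_pos h4]
      rw [h6]
      have h7 : (⟨σ y, h4⟩ : ↥Y) = φ.symm ⟨y, mem_sdiff.2 ⟨mem_univ _, hy⟩⟩ :=
        Subtype.ext h5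
      rw [h7, Equiv.apply_symm_apply]
  refine ⟨σ, fun i => if h : i ∈ W then (σ ⟨i, h⟩).1 else i, h1, ?_, ?_, ?_, ?_, h2⟩
  · intro a _ b _ hab
    rw [← h3 a, hab, h3]
  · intro i
    by_cases h : i ∈ W
    · simp only [h, dite_true]
      rw [dif_pos (σ ⟨i, h⟩).2]
      have : (⟨(σ ⟨i, h⟩).1, (σ ⟨i, h⟩).2⟩ : ↥W) = σ ⟨i, h⟩ := rfl
      rw [this, h3]
    · simp [h]
  · intro i
    simp only [i.2, dite_true]
  · intro i
    by_cases h : i ∈ W
    · simp only [h, dite_true, not_true, iff_false]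
      intro he
      have h4 : σ ⟨i, h⟩ = ⟨i, h⟩ := Subtype.ext he
      by_cases hy : (⟨i, h⟩ : ↥W) ∈ Y
      · exact h1 _ hy (by rw [h4]; exact hy)
      · have h7 := h2 _ hy
        rw [h4] at h7
        exact hy h7
    · simp [h]

theorem val_full (C : Ckt K (Fin n × Fin n)) (hC : ComputesPer C ∨ ComputesDet C)
    (W : Finset (Fin n)) (Y : Finset ↥W) (hY : 2 * Y.card = W.card) :
    ∃ ρ : Fin n × Fin n → K, ∀ r,
      RkLe Y r (val C (fun i : ↥W => (i.1, i.1)) ρ C.out) → 2 ^ Y.card ≤ r := by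
  classical
  obtain ⟨σ, τ, h1, h2, h3, h4, h5, h6⟩ := exists_invol W Y hY
  have he : Function.Injective (fun i : ↥W => ((i.1, i.1) : Fin n × Fin n)) :=
    fun a b h => Subtype.ext (congrArg Prod.fst h)
  let ρ : Fin n × Fin n → K := fun p => if p.1 = p.2 then 1 else if p.2 = τ p.1 then 1 else 0
  refine ⟨ρ, ?_⟩
  let d : (↥W → Bool) → Fin n → K := fun x i =>
    if h : i ∈ W then (if x ⟨i, h⟩ = true then 1 else 0) else 1
  have hpt : ∀ x i j, point (fun i : ↥W => ((i.1, i.1) : Fin n × Fin n)) ρ x (i, j) =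
      if i = j then d x i else if j = τ i then 1 else 0 := by
    intro x i j
    by_cases hij : i = j
    · subst hij
      rw [if_pos rfl]
      by_cases hi : i ∈ W
      · have := point_e he ρ x ⟨i, hi⟩
        simp only [d, hi, dite_true]
        exact this
      · rw [point_off]
        · simp [ρ, d, hi]
        · intro v hv
          have : v.1 = i := congrArg Prod.fst hv
          exact hi (this ▸ v.2)
    · rw [point_off]
      · simp [ρ, hij]
      · intro v hv
        have a1 : v.1 = i := congrArg Prod.fst hv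
        have a2 : v.1 = j := congrArg Prod.snd hv
        exact hij (a1.symm.trans a2)
  have h01 : ∀ x p, point (fun i : ↥W => ((i.1, i.1) : Fin n × Fin n)) ρ x p = 0 ∨
      point (fun i : ↥W => ((i.1, i.1) : Fin n × Fin n)) ρ x p = 1 := by
    rintro x ⟨i, j⟩
    rw [hpt]
    simp only [d]
    split_ifs <;> simp
  have hmat : ∀ x, (Matrix.of fun i j =>
      point (fun i : ↥W => ((i.1, i.1) : Fin n × Fin n)) ρ x (i, j)) =
      Matrix.of fun i j => if i = j then d x i else if j = τ i then 1 else 0 := by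
    intro x
    ext i j
    simp only [Matrix.of_apply]
    exact hpt x i j
  let Y' : Finset (Fin n) := Y.map ⟨fun i => i.1, Subtype.val_injective⟩
  have hY' : ∀ i : ↥W, i.1 ∈ Y' ↔ i ∈ Y := by
    intro i
    simp only [Y', mem_map, Function.Embedding.coeFn_mk]
    constructor
    · rintro ⟨a, ha, hb⟩; rw [← Subtype.ext hb]; exact ha
    · intro h; exact ⟨i, h, rfl⟩
  have hYW : ∀ i ∈ Y', i ∈ W := by
    intro i hi
    simp only [Y', mem_map, Function.Embedding.coeFn_mk] at hi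
    obtain ⟨a, _, rfl⟩ := hi
    exact a.2
  have hm := fun x => Pool.Agent.TH444.J1116.mtch K n Y' τ h3 (by
      intro y hy
      have hyW := hYW y hy
      have h7 := h4 ⟨y, hyW⟩
      simp only at h7
      rw [h7, hY']
      exact h1 _ ((hY' ⟨y, hyW⟩).1 hy)) (by
      intro i hi hτi
      rw [h5]
      intro hiW
      have h7 := h4 ⟨i, hiW⟩
      simp only at h7
      rw [h7, hY'] at hτi
      exact hτi (h6 _ fun h => hi ((hY' ⟨i, hiW⟩).2 h))) (d x)
  have hprod : ∀ x, ∏ i ∈ univ.filter (fun i => τ i = i), d x i = 1 := by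
    intro x
    apply prod_eq_one
    intro i hi
    rw [mem_filter, h5] at hi
    simp [d, hi.2]
  have hdy : ∀ x (y : ↥W), d x y.1 * d x (τ y.1) =
      if x y = true ∧ x (σ y) = true then 1 else 0 := by
    intro x y
    rw [h4 y]
    simp only [d, y.2, (σ y).2, dite_true]
    by_cases a : x y = true <;> by_cases b : x (σ y) = true <;> simp [a, b]
  rcases hC with hC | hC
  · intro r hr
    refine Pool.Agent.TH444.J1115.full ↥W K Y σ h1 h2 1 1 one_ne_zero one_ne_zero _ ?_ r hr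
    intro x
    show C.eval _ = _
    rw [hC _ (h01 x), hmat x, (hm x).1, hprod x]
    simp only [Y', prod_map, Function.Embedding.coeFn_mk]
    congr 1
    exact prod_congr rfl fun y _ => by rw [hdy]
  · intro r hr
    refine Pool.Agent.TH444.J1115.full ↥W K Y σ h1 h2 (-1) 1 (neg_ne_zero.2 one_ne_zero)
      one_ne_zero _ ?_ r hr
    intro x
    show C.eval _ = _
    rw [hC _ (h01 x), hmat x, (hm x).2, hprod x]
    simp only [Y', prod_map, Function.Embedding.coeFn_mk]
    congr 1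
    exact prod_congr rfl fun y _ => by rw [hdy, sub_eq_add_neg]

/-- **Width against size** for the permanent and the determinant. -/
theorem narrow (C : Ckt K (Fin n × Fin n)) (hC : ComputesPer C ∨ ComputesDet C)
    (W : Finset (Fin n)) (hd : ∀ i ∈ W, C.deg (i, i) ≤ 1) (w : ℕ) (hw : C.Width w) :
    (Nat.log 2 W.card) ^ 2 ≤ 2 ^ 40 * ((Nat.log 2 w + 1) * (Nat.log 2 C.size + 1)) := by
  classical
  rcases Nat.eq_zero_or_pos W.card with h0 | hpos
  · rw [h0]; simp
  obtain ⟨W', hW', hc⟩ := exists_subset_card_eq (Nat.pow_log_le_self 2 hpos.ne')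
  refine lower_bound C (fun i : ↥W' => (i.1, i.1))
    (fun a b h => Subtype.ext (congrArg Prod.fst h)) (Nat.log 2 W.card) w
    (by rw [Fintype.card_coe, hc]) hw (fun i => hd i.1 (hW' i.2)) fun Y hY => ?_
  exact val_full C hC W' Y (by rw [hY, hc])

end Pool.Agent.TH708.Ari
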