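import Pool.Agent.TH708.Ari.Sem

/-!
# Algebraic branching programs
-/

set_option autoImplicit false
set_option linter.unusedSectionVars false

namespace Pool.Agent.TH708.Ari

open Finset Pool.Agent.TH708.Nar

/-- An edge label: an affine form in all variables plus an arbitrary function of the variables in
`vars`. -/
structure Label (K I : Type) where
  /-- constant term -/
  const : K
  /-- coefficients -/
  coef : I → K
  /-- the variables of the second part -/
  vars : Finset I
  /-- the second part -/
  fn : (I → K) → K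
  dep : ∀ z z' : I → K, (∀ i ∈ vars, z i = z' i) → fn z = fn z'

namespace Label

variable {K I : Type}

/-- The value of a label. -/
def eval [Field K] [Fintype I] (ℓ : Label K I) (z : I → K) : K :=
  ℓ.const + ∑ i, ℓ.coef i * z i + ℓ.fn z

/-- The label reads the variable `i`. -/
def Reads [Field K] (ℓ : Label K I) (i : I) : Prop := ℓ.coef i ≠ 0 ∨ i ∈ ℓ.vars

end Label

/-- Branching programs of width `w`: between the layers `d + 1` and `d` there is an edge from the
node `v` to the node `u` if `edge d v u` is a label. -/
structure Prog (K I : Type) (w : ℕ) where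
  /-- the edges -/
  edge : ℕ → Fin w → Fin w → Option (Label K I)
  /-- the source, in the top layer -/
  src : Fin w
  /-- the sink, in layer 0 -/
  snk : Fin w

namespace Prog

variable {K I : Type} {w : ℕ}

/-- The sum, over all paths from the node `v` of layer `d` to the sink, of the products of the
labels. -/
def tail [Field K] [Fintype I] (P : Prog K I w) (z : I → K) : ℕ → Fin w → K
  | 0, v => if v = P.snk then 1 else 0
  | d + 1, v => ∑ u, (match P.edge d v u with
      | none => 0
      | some ℓ => ℓ.eval z) * P.tail z d u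

/-- The value of the program of length `L`. -/
def eval [Field K] [Fintype I] (P : Prog K I w) (L : ℕ) (z : I → K) : K := P.tail z L P.src

open Classical in
/-- The maximal number of labels that read the variable `i`, over the paths that start in the node
`v` of layer `d`. -/
noncomputable def deg [Field K] (P : Prog K I w) (i : I) : ℕ → Fin w → ℕ
  | 0, _ => 0
  | d + 1, v => univ.sup fun u => match P.edge d v u with
      | none => 0
      | some ℓ => (if ℓ.Reads i then 1 else 0) + P.deg i d u

end Prog

variable {K I V : Type} [Field K] [Fintype I] [DecidableEq I] [DecidableEq V] [Fintype V] {w : ℕ}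

/-- The tracked variables read below a node. -/
noncomputable def us (P : Prog K I w) (e : V → I) (d : ℕ) (v : Fin w) : Finset V :=
  univ.filter fun i => 1 ≤ P.deg (e i) d v

theorem mem_us {P : Prog K I w} {e : V → I} {d : ℕ} {v : Fin w} {i : V} :
    i ∈ us P e d v ↔ 1 ≤ P.deg (e i) d v := by simp [us]

/-- The paths starting in the node read every tracked variable at most once. -/
def POk (P : Prog K I w) (e : V → I) (d : ℕ) (v : Fin w) : Prop := ∀ i, P.deg (e i) d v ≤ 1

/-- The value of the tail as a function of the tracked variables. -/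
noncomputable def tv (P : Prog K I w) (e : V → I) (ρ : I → K) (d : ℕ) (v : Fin w)
    (x : V → Bool) : K := P.tail (point e ρ x) d v

variable {P : Prog K I w} {e : V → I} {ρ : I → K}

theorem deg_edge (i : I) {d : ℕ} {v u : Fin w} {ℓ : Label K I} (h : P.edge d v u = some ℓ) :
    P.deg i d u ≤ P.deg i (d + 1) v ∧ (ℓ.Reads i → P.deg i d u + 1 ≤ P.deg i (d + 1) v) := by
  classical
  have h1 : (match P.edge d v u with
      | none => 0
      | some ℓ => (if ℓ.Reads i then 1 else 0) + P.deg i d u) ≤ P.deg i (d + 1) v := by
    rw [Prog.deg]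
    exact le_sup (f := fun u => match P.edge d v u with
      | none => 0
      | some ℓ => (if ℓ.Reads i then 1 else 0) + P.deg i d u) (mem_univ u)
  rw [h] at h1
  simp only at h1
  refine ⟨by omega, fun hr => ?_⟩
  rw [if_pos hr] at h1
  omega

theorem us_edge {d : ℕ} {v u : Fin w} {ℓ : Label K I} (h : P.edge d v u = some ℓ) :
    us P e d u ⊆ us P e (d + 1) v := by
  intro i hi
  rw [mem_us] at hi ⊢
  exact hi.trans (deg_edge (e i) h).1

open Classical in
/-- The tracked variables read by a label. -/
noncomputable def rd (e : V → I) (ℓ : Label K I) : Finset V := univ.filter fun i => ℓ.Reads (e i)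

theorem mem_rd {ℓ : Label K I} {i : V} : i ∈ rd e ℓ ↔ ℓ.Reads (e i) := by
  classical
  simp [rd]

theorem rd_edge {d : ℕ} {v u : Fin w} {ℓ : Label K I} (h : P.edge d v u = some ℓ)
    (hok : POk P e (d + 1) v) : rd e ℓ ⊆ us P e (d + 1) v ∧ Disjoint (rd e ℓ) (us P e d u) ∧
      POk P e d u := by
  classical
  refine ⟨?_, ?_, ?_⟩
  · intro i hi
    rw [rd, mem_filter] at hi
    rw [mem_us]
    have := (deg_edge (e i) h).2 hi.2
    omega
  · rw [disjoint_left]
    intro i hi hi'
    rw [rd, mem_filter] at hi
    rw [mem_us] at hi'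
    have := (deg_edge (e i) h).2 hi.2
    have := hok i
    omega
  · intro i
    exact (deg_edge (e i) h).1.trans (hok i)

theorem label_congr (he : Function.Injective e) (ℓ : Label K I) {x x' : V → Bool}
    (hx : ∀ i ∈ rd e ℓ, x i = x' i) : ℓ.eval (point e ρ x) = ℓ.eval (point e ρ x') := by
  classical
  have hp : ∀ v, ℓ.Reads v → point e ρ x v = point e ρ x' v := by
    intro v hv
    by_cases h : ∃ i, e i = v
    · obtain ⟨i, rfl⟩ := h
      rw [point_e he, point_e he, hx i (by rw [rd, mem_filter]; exact ⟨mem_univ _, hv⟩)]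
    · push Not at h
      rw [point_off _ _ _ h, point_off _ _ _ h]
  unfold Label.eval
  congr 1
  · congr 1
    refine sum_congr rfl fun v _ => ?_
    by_cases hc : ℓ.coef v = 0
    · rw [hc, zero_mul, zero_mul]
    · rw [hp v (Or.inl hc)]
  · exact ℓ.dep _ _ fun v hv => hp v (Or.inr hv)

theorem tv_succ (d : ℕ) (v : Fin w) (x : V → Bool) : tv P e ρ (d + 1) v x =
    ∑ u, (match P.edge d v u with
      | none => 0
      | some ℓ => ℓ.eval (point e ρ x)) * tv P e ρ d u x := by
  unfold tv
  rw [Prog.tail]

theorem tv_dep (he : Function.Injective e) : ∀ (d : ℕ) (v : Fin w),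
    Dep (us P e d v) (tv P e ρ d v) := by
  intro d
  induction d with
  | zero => intro v x x' _; rfl
  | succ d ih =>
    intro v x x' hx
    rw [tv_succ, tv_succ]
    refine sum_congr rfl fun u _ => ?_
    cases h : P.edge d v u with
    | none => simp only [zero_mul]
    | some ℓ =>
      simp only
      have h1 : ∀ i ∈ us P e d u, x i = x' i := fun i hi => hx i (us_edge h hi)
      rw [ih u x x' h1, label_congr he ℓ]
      intro i hi
      apply hx
      rw [mem_rd] at hi
      rw [mem_us]
      have := (deg_edge (e i) h).2 hi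
      omega

/-- The rank of a label. -/
theorem label_rk (he : Function.Injective e) (Y : Finset V) (m : ℕ) (ℓ : Label K I)
    (hm : (univ.filter fun i : V => e i ∈ ℓ.vars).card ≤ m) :
    RkLe Y (2 ^ (m + 2)) (fun x => ℓ.eval (point e ρ x)) := by
  classical
  -- the affine part
  have hsplit : ∀ x : V → Bool, ∑ v, ℓ.coef v * point e ρ x v =
      (∑ v, if ∃ i ∈ Y, e i = v then ℓ.coef v * point e ρ x v else 0) +
        ∑ v, if ∃ i ∈ Y, e i = v then 0 else ℓ.coef v * point e ρ x v := by
    intro x
    rw [← sum_add_distrib]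
    refine sum_congr rfl fun v _ => ?_
    split_ifs <;> simp
  have h1 : RkLe Y 1 (fun x : V → Bool => ∑ v, if ∃ i ∈ Y, e i = v then
      ℓ.coef v * point e ρ x v else 0) := by
    refine ⟨Unit, inferInstance, fun _ x => ∑ v, if ∃ i ∈ Y, e i = v then
      ℓ.coef v * point e ρ x v else 0, fun _ _ => 1, by simp, ?_, fun _ _ _ _ => rfl, by simp⟩
    intro _ x x' hx
    refine sum_congr rfl fun v _ => ?_
    split_ifs with h
    · obtain ⟨i, hi, rfl⟩ := h
      rw [point_e he, point_e he, hx i hi]
    · rfl
  have h2 : RkLe Y 1 (fun x : V → Bool => ℓ.const + ∑ v, if ∃ i ∈ Y, e i = v then 0 else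
      ℓ.coef v * point e ρ x v) := by
    refine ⟨Unit, inferInstance, fun _ _ => 1, fun _ x => ℓ.const + ∑ v, if ∃ i ∈ Y, e i = v then 0
      else ℓ.coef v * point e ρ x v, by simp, fun _ _ _ _ => rfl, ?_, by simp⟩
    intro _ x x' hx
    simp only
    congr 1
    refine sum_congr rfl fun v _ => ?_
    split_ifs with h
    · rfl
    · by_cases h' : ∃ i, e i = v
      · obtain ⟨i, rfl⟩ := h'
        have : i ∉ Y := fun hi => h ⟨i, hi, rfl⟩
        rw [point_e he, point_e he, hx i (mem_sdiff.2 ⟨mem_univ _, this⟩)]
      · push Not at h'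
        rw [point_off _ _ _ h', point_off _ _ _ h']
  have h3 : Dep (univ.filter fun i : V => e i ∈ ℓ.vars) (fun x : V → Bool =>
      ℓ.fn (point e ρ x)) := by
    intro x x' hx
    apply ℓ.dep
    intro v hv
    by_cases h' : ∃ i, e i = v
    · obtain ⟨i, rfl⟩ := h'
      rw [point_e he, point_e he, hx i (by rw [mem_filter]; exact ⟨mem_univ _, hv⟩)]
    · push Not at h'
      rw [point_off _ _ _ h', point_off _ _ _ h']
  have h4 := (h3.rk_left (Y := Y)).mono (Nat.pow_le_pow_right (by norm_num)
    ((card_le_card inter_subset_left).trans hm))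
  have h5 := (h1.add h2).add h4
  have h6 : 1 + 1 + 2 ^ m ≤ 2 ^ (m + 2) := by
    have : 1 ≤ 2 ^ m := Nat.one_le_two_pow
    rw [pow_add]; omega
  have h7 := h5.mono h6
  convert h7 using 2 with x
  unfold Label.eval
  rw [hsplit]
  ring

/-- A chain of good nodes from the source down to layer `d`. -/
def PPath (P : Prog K I w) (e : V → I) (s Δ : ℕ) (Y : Finset V) (L d : ℕ) (v : Fin w) : Prop :=
  ∃ p : ℕ → Fin w, p L = P.src ∧ p d = v ∧
    (∀ i, d ≤ i → i ≤ L → POk P e i (p i) ∧ Near s (us P e i (p i)) Y) ∧
    ∀ i, d ≤ i → i < L → us P e i (p i) ⊆ us P e (i + 1) (p (i + 1)) ∧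
      (us P e (i + 1) (p (i + 1)) \ us P e i (p i)).card ≤ Δ

theorem PPath.snoc {s Δ : ℕ} {Y : Finset V} {L d : ℕ} {v u : Fin w} (hd : d < L)
    (h : PPath P e s Δ Y L (d + 1) v) (h1 : POk P e d u) (h2 : Near s (us P e d u) Y)
    (h3 : us P e d u ⊆ us P e (d + 1) v) (h4 : (us P e (d + 1) v \ us P e d u).card ≤ Δ) :
    PPath P e s Δ Y L d u := by
  obtain ⟨p, p1, p2, p3, p4⟩ := h
  refine ⟨fun i => if i = d then u else p i, ?_, by simp, ?_, ?_⟩
  · have : L ≠ d := by omega
    simp [this, p1]
  · intro i hi hiL
    by_cases hid : i = d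
    · subst hid; simpa using ⟨h1, h2⟩
    · simp only [hid, if_false]
      exact p3 i (by omega) hiL
  · intro i hi hiL
    by_cases hid : i = d
    · subst hid
      have : i + 1 ≠ i := by omega
      simp only [if_true, this, if_false]
      rw [p2]
      exact ⟨h3, h4⟩
    · have h' : i + 1 ≠ d := by omega
      simp only [hid, h', if_false]
      exact p4 i (by omega) hiL

open Classical in
theorem prog_forward (he : Function.Injective e) {k : ℕ} (hV : Fintype.card V = 2 * k)
    {Y : Finset V} (L m ν s Δ : ℕ)
    (hm : ∀ d v u ℓ, P.edge d v u = some ℓ →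
      (univ.filter fun i : V => e i ∈ ℓ.vars).card ≤ m)
    (hs : 2 * (ν + 1) ≤ s) (hΔ : s + 2 * m + 4 ≤ Δ)
    (h0 : PPath P e s Δ Y L L P.src) (j : ℕ) (hj : j ≤ L) :
    ∃ (Q : Fin w → (V → Bool) → K) (E : (V → Bool) → K),
      (∀ x, tv P e ρ L P.src x = ∑ v ∈ univ.filter (fun v => PPath P e s Δ Y L (L - j) v),
        Q v x * tv P e ρ (L - j) v x + E x) ∧
      (∀ v, PPath P e s Δ Y L (L - j) v → Dep (univ \ us P e (L - j) v) (Q v)) ∧
      RkLe Y (j * w ^ 2 * 2 ^ (k - ν - 1)) E := by
  induction j with
  | zero =>
    refine ⟨fun _ _ => 1, fun _ => 0, ?_, fun _ _ _ _ _ => rfl, ?_⟩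
    · intro x
      have : (univ.filter fun v => PPath P e s Δ Y L (L - 0) v) = {P.src} := by
        ext v
        simp only [mem_filter, mem_univ, true_and, mem_singleton, Nat.sub_zero]
        constructor
        · rintro ⟨p, p1, p2, _⟩
          rw [← p1, ← p2]
        · rintro rfl; exact h0
      rw [this, sum_singleton]
      simp
    · simpa using rk_zero
  | succ j ih =>
    obtain ⟨Q, E, e1, e2, e3⟩ := ih (by omega)
    obtain ⟨d, hd⟩ : ∃ d, L - j = d + 1 := ⟨L - j - 1, by omega⟩
    have hd' : L - (j + 1) = d := by omega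
    rw [hd] at e1 e2
    rw [hd']
    have hdL : d < L := by omega
    set S := (univ : Finset (Fin w)).filter (fun v => PPath P e s Δ Y L (d + 1) v) with hSdef
    set lab : Fin w → Fin w → (V → Bool) → K := fun v u x => match P.edge d v u with
      | none => 0
      | some ℓ => ℓ.eval (point e ρ x) with hlab
    set good : Fin w × Fin w → Prop := fun p => (∃ ℓ, P.edge d p.1 p.2 = some ℓ) ∧
      Near s (us P e d p.2) Y ∧ (us P e (d + 1) p.1 \ us P e d p.2).card ≤ Δ with hgood
    set T := S ×ˢ (univ : Finset (Fin w)) with hT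
    have hTmem : ∀ p ∈ T, PPath P e s Δ Y L (d + 1) p.1 := by
      intro p hp
      rw [hT, mem_product, hSdef, mem_filter] at hp
      exact hp.1.2
    have hok : ∀ p ∈ T, POk P e (d + 1) p.1 := by
      intro p hp
      obtain ⟨q, q1, q2, q3, q4⟩ := hTmem p hp
      have := (q3 (d + 1) le_rfl (by omega)).1
      rwa [q2] at this
    have hgoodPath : ∀ p ∈ T.filter good, PPath P e s Δ Y L d p.2 := by
      intro p hp
      rw [mem_filter] at hp
      obtain ⟨⟨ℓ, hℓ⟩, h2, h3⟩ := hp.2
      exact (hTmem p hp.1).snoc hdL (rd_edge hℓ (hok p hp.1)).2.2 h2 (us_edge hℓ) h3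
    refine ⟨fun u x => ∑ p ∈ (T.filter good).filter (fun p => p.2 = u), Q p.1 x * lab p.1 p.2 x,
      fun x => ∑ p ∈ T.filter (fun p => ¬ good p),
        (Q p.1 x * lab p.1 p.2 x) * tv P e ρ d p.2 x + E x, ?_, ?_, ?_⟩
    · intro x
      rw [e1 x, ← add_assoc]
      congr 1
      have s1 : ∑ v ∈ S, Q v x * tv P e ρ (d + 1) v x =
          ∑ p ∈ T, (Q p.1 x * lab p.1 p.2 x) * tv P e ρ d p.2 x := by
        rw [hT, sum_product]
        refine sum_congr rfl fun v _ => ?_
        rw [tv_succ, mul_sum]
        refine sum_congr rfl fun u _ => ?_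
        simp only [hlab]
        ring
      rw [s1, ← sum_filter_add_sum_filter_not T good]
      congr 1
      rw [← sum_fiberwise_of_maps_to (t := univ.filter fun u => PPath P e s Δ Y L d u)
        (g := fun p => p.2)]
      · refine sum_congr rfl fun u _ => ?_
        rw [sum_mul]
        refine sum_congr rfl fun p hp => ?_
        rw [mem_filter] at hp
        rw [hp.2]
      · intro p hp
        rw [mem_filter]
        exact ⟨mem_univ _, hgoodPath p hp⟩
    · intro u _
      apply Dep.sum
      intro p hp
      rw [mem_filter, mem_filter] at hp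
      obtain ⟨⟨hpT, ⟨ℓ, hℓ⟩, _, _⟩, hpu⟩ := hp
      have hr := rd_edge hℓ (hok p hpT)
      have hlabd : Dep (rd e ℓ) (lab p.1 p.2) := by
        intro x x' hx
        simp only [hlab, hℓ]
        exact label_congr he ℓ hx
      refine ((e2 p.1 (hTmem p hpT)).mul hlabd).mono ?_
      intro i hi
      rw [mem_sdiff]
      refine ⟨mem_univ _, fun hi' => ?_⟩
      rw [← hpu] at hi'
      rw [mem_union, mem_sdiff] at hi
      rcases hi with hi | hi
      · exact hi.2 (us_edge hℓ hi')
      · exact disjoint_left.1 hr.2.1 hi hi'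
    · have hcard : (T.filter (fun p => ¬ good p)).card ≤ w ^ 2 := by
        refine (card_filter_le _ _).trans ?_
        rw [hT, card_product, card_univ, Fintype.card_fin, pow_two]
        apply Nat.mul_le_mul_right
        refine (card_filter_le _ _).trans ?_
        rw [card_univ, Fintype.card_fin]
      have hterm : ∀ p ∈ T.filter (fun p => ¬ good p), RkLe Y (2 ^ (k - ν - 1)) (fun x =>
          (Q p.1 x * lab p.1 p.2 x) * tv P e ρ d p.2 x) := by
        intro p hp
        rw [mem_filter] at hp
        cases hℓ : P.edge d p.1 p.2 with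
        | none =>
          have hz : (fun x => (Q p.1 x * lab p.1 p.2 x) * tv P e ρ d p.2 x) =
              fun _ : V → Bool => (0 : K) := by
            funext x
            simp only [hlab, hℓ]
            ring
          rw [hz]
          exact rk_zero.mono (Nat.zero_le _)
        | some ℓ =>
          have hr := rd_edge hℓ (hok p hp.1)
          have hlabd : Dep (rd e ℓ) (lab p.1 p.2) := by
            intro x x' hx
            simp only [hlab, hℓ]
            exact label_congr he ℓ hx
          have hQd := e2 p.1 (hTmem p hp.1)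
          obtain ⟨a2, b1, b2, b3⟩ := (tv_dep (P := P) (ρ := ρ) he d p.2).rk_half (Y := Y)
          have hn : (univ : Finset V).card = 2 * k := by rw [card_univ, hV]
          by_cases hnear : Near s (us P e d p.2) Y
          · have hstep : Δ < (us P e (d + 1) p.1 \ us P e d p.2).card := by
              by_contra hc
              push Not at hc
              exact hp.2 ⟨⟨ℓ, hℓ⟩, hnear, hc⟩
            obtain ⟨a0, c1, c2, _⟩ := hQd.rk_half (Y := Y)
            have hl := label_rk (ρ := ρ) he Y m ℓ (hm _ _ _ _ hℓ)
            have hl' : RkLe Y (2 ^ (m + 2)) (lab p.1 p.2) := by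
              convert hl using 2 with x
              simp only [hlab, hℓ]
            have h5 := (c1.mul hl').mul b1
            rw [← pow_add, ← pow_add] at h5
            refine h5.mono (Nat.pow_le_pow_right (by norm_num) ?_)
            have h6 := card_sdiff_add_card_eq_card (subset_univ (us P e (d + 1) p.1))
            have h7 := card_sdiff_add_card_eq_card (us_edge (e := e) hℓ)
            rw [hn] at h6
            omega
          · have b4 := b3 s hnear
            have hdd : Dep (univ \ us P e d p.2) (fun x => Q p.1 x * lab p.1 p.2 x) := by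
              refine (hQd.mul hlabd).mono ?_
              intro i hi
              rw [mem_sdiff]
              refine ⟨mem_univ _, fun hi' => ?_⟩
              rw [mem_union, mem_sdiff] at hi
              rcases hi with hi | hi
              · exact hi.2 (us_edge hℓ hi')
              · exact disjoint_left.1 hr.2.1 hi hi'
            obtain ⟨a0, c1, c2, _⟩ := hdd.rk_half (Y := Y)
            have h5 := c1.mul b1
            rw [← pow_add] at h5
            refine h5.mono (Nat.pow_le_pow_right (by norm_num) ?_)
            have h6 := card_sdiff_add_card_eq_card (subset_univ (us P e d p.2))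
            rw [hn] at h6
            omega
      have hsum := (RkLe.sum _ hterm).add e3
      refine hsum.mono ?_
      have := Nat.mul_le_mul_right (2 ^ (k - ν - 1)) hcard
      have h9 : (j + 1) * w ^ 2 * 2 ^ (k - ν - 1) =
          w ^ 2 * 2 ^ (k - ν - 1) + j * w ^ 2 * 2 ^ (k - ν - 1) := by ring
      rw [h9]
      omega

end Pool.Agent.TH708.Ari
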