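import Pool.Agent.TH708.Ari.Prog
import Pool.Agent.TH708.Nar.Level

/-!
# The lower bound for narrow branching programs
-/

set_option autoImplicit false
set_option linter.unusedSectionVars false

namespace Pool.Agent.TH708.Ari

open Finset Pool.Agent.TH708.Nar

variable {K I V : Type} [Field K] [Fintype I] [DecidableEq I] [DecidableEq V] [Fintype V] {w : ℕ}
  {P : Prog K I w} {e : V → I} {ρ : I → K}

theorem us_src (he : Function.Injective e) {k : ℕ}
    (hV : Fintype.card V = 2 * k) {Y : Finset V} (hY : Y.card = k) {L : ℕ}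
    (hfull : ∀ r, RkLe Y r (tv P e ρ L P.src) → 2 ^ k ≤ r) : us P e L P.src = univ := by
  rw [eq_univ_iff_forall]
  intro i
  by_contra hi
  have hd := tv_dep (P := P) (ρ := ρ) he L P.src
  by_cases hiY : i ∈ Y
  · have h1 := hfull _ (hd.rk_left (Y := Y))
    have h2 : (us P e L P.src ∩ Y).card < k := by
      rw [← hY]
      apply card_lt_card
      refine ⟨inter_subset_right, fun h => ?_⟩
      exact hi (mem_inter.1 (h hiY)).1
    have := Nat.pow_lt_pow_right (a := 2) (by norm_num) h2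
    omega
  · have h1 := hfull _ (hd.rk_right (Y := Y))
    have h3 : (univ \ Y).card = k := by
      rw [card_sdiff_of_subset (subset_univ _), card_univ, hV, hY]; omega
    have h2 : (us P e L P.src \ Y).card < k := by
      rw [← h3]
      apply card_lt_card
      refine ⟨sdiff_subset_sdiff (subset_univ _) Subset.rfl, fun h => ?_⟩
      exact hi (mem_sdiff.1 (h (mem_sdiff.2 ⟨mem_univ i, hiY⟩))).1
    have := Nat.pow_lt_pow_right (a := 2) (by norm_num) h2
    omega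

theorem ppath_exists (he : Function.Injective e) {k : ℕ} (hV : Fintype.card V = 2 * k)
    {Y : Finset V} (hY : Y.card = k) (L m ν s Δ : ℕ)
    (hm : ∀ d v u ℓ, P.edge d v u = some ℓ →
      (univ.filter fun i : V => e i ∈ ℓ.vars).card ≤ m)
    (hs : 2 * (ν + 1) ≤ s) (hΔ : s + 2 * m + 4 ≤ Δ) (hok : POk P e L P.src)
    (hcount : L * w ^ 2 ≤ 2 ^ ν) (hνk : ν + 1 ≤ k)
    (hfull : ∀ r, RkLe Y r (tv P e ρ L P.src) → 2 ^ k ≤ r) :
    ∃ v, PPath P e s Δ Y L 0 v := by
  classical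
  have hout := us_src (P := P) (ρ := ρ) he hV hY hfull
  have hn : (univ : Finset V).card = 2 * k := by rw [card_univ, hV]
  have h0 : PPath P e s Δ Y L L P.src := by
    refine ⟨fun _ => P.src, rfl, rfl, fun i hi hi' => ?_, fun i hi hi' => ?_⟩
    · have : i = L := by omega
      subst this
      refine ⟨hok, ?_⟩
      rw [hout]
      unfold Near
      rw [univ_inter, hY, hn]
      omega
    · omega
  by_contra hcon
  push Not at hcon
  obtain ⟨Q, E, e1, e2, e3⟩ := prog_forward (ρ := ρ) he hV L m ν s Δ hm hs hΔ h0 L le_rfl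
  rw [Nat.sub_self] at e1
  have hempty : (univ : Finset (Fin w)).filter (fun v => PPath P e s Δ Y L 0 v) = ∅ := by
    rw [filter_eq_empty_iff]
    intro v _
    exact hcon v
  have h1 : tv P e ρ L P.src = E := by
    funext x
    rw [e1 x, hempty, sum_empty, zero_add]
  have h2 := hfull _ (h1 ▸ e3)
  have h3 : L * w ^ 2 * 2 ^ (k - ν - 1) ≤ 2 ^ ν * 2 ^ (k - ν - 1) :=
    Nat.mul_le_mul_right _ hcount
  have h4 : 2 ^ ν * 2 ^ (k - ν - 1) = 2 ^ (k - 1) := by
    rw [← pow_add]; congr 1; omega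
  have h5 : 2 ^ (k - 1) < 2 ^ k := Nat.pow_lt_pow_right (by norm_num) (by omega)
  omega

/-- **Counting.** -/
theorem prog_count (he : Function.Injective e) (k : ℕ)
    (hV : Fintype.card V = 2 * k) (hk : 1 ≤ k) (L m : ℕ)
    (hm : ∀ d v u ℓ, P.edge d v u = some ℓ →
      (univ.filter fun i : V => e i ∈ ℓ.vars).card ≤ m)
    (hok : POk P e L P.src)
    (hS : ∀ Y : Finset V, Y.card = k →
      ∃ ρ : I → K, ∀ r, RkLe Y r (tv P e ρ L P.src) → 2 ^ k ≤ r)
    (s ν τ t B M μ R : ℕ) (hcount : L * w ^ 2 ≤ 2 ^ ν) (hνk : ν + 1 ≤ k)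
    (hs : 2 * (ν + 1) ≤ s) (hsτ : s ≤ τ) (ht : 16 * τ ^ 4 ≤ t) (htk : t ≤ 2 * k) (hM : w ≤ M)
    (hΛ : 2 ≤ Real.log (2 * τ)) (hμ : s + 2 * m + 4 ≤ μ) (hμ0 : 0 < μ) (hBt : 8 * (B * t) ≤ μ)
    (hBM : (B : ℝ) * (M ^ 2 * Real.exp (-(Real.log (2 * τ) / 8))) ≤ 1) (hR : L ≤ B ^ R) :
    (1 : ℝ) ≤ 2 * k *
      Real.exp (-(Real.log (2 * τ) * max (1 : ℝ) ((2 * k) / (μ * 2 ^ R)))) := by
  classical
  set F : ℕ → Finset (Finset V) := fun j => univ.image fun v => us P e j v with hF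
  have hFM : ∀ j, (F j).card ≤ M := by
    intro j
    refine card_image_le.trans ?_
    rw [card_univ, Fintype.card_fin]
    exact hM
  have hτ1 : 1 ≤ τ := by omega
  have hcover : (univ : Finset V).powersetCard k ⊆
        Ch F (s + 2 * m + 4) (2 * τ) 0 L ∅ univ := by
    intro Y hY
    rw [mem_powersetCard] at hY
    obtain ⟨ρ, hfull⟩ := hS Y hY.2
    obtain ⟨v, p, p1, p2, p3, p4⟩ := ppath_exists (P := P) (ρ := ρ) he hV hY.2 L m ν s
      (s + 2 * m + 4) hm hs le_rfl hok hcount hνk hfull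
    have hout := us_src (P := P) (ρ := ρ) he hV hY.2 hfull
    rw [Ch, mem_filter]
    refine ⟨by rw [sdiff_empty, mem_powerset]; exact subset_univ _, ?_⟩
    refine ⟨fun j => us P e j (p j), ?_, ?_, ?_, ?_, ?_⟩
    · simp only
      ext i
      rw [mem_us]
      simp [Prog.deg]
    · simp only
      rw [p1, hout]
    · intro j _ _
      rw [hF]
      simp only [mem_image, mem_univ, true_and]
      exact ⟨p j, rfl⟩
    · intro j _ hj
      exact p4 j (Nat.zero_le _) hj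
    · intro i j _ hij hj
      simp only
      have hmono : ∀ d, i + d ≤ L → us P e i (p i) ⊆ us P e (i + d) (p (i + d)) := by
        intro d
        induction d with
        | zero => intro _; exact Subset.rfl
        | succ d ih => intro hd; exact (ih (by omega)).trans (p4 (i + d) (Nat.zero_le _)
            (by omega)).1
      have hA : us P e i (p i) ⊆ us P e j (p j) := by
        have := hmono (j - i) (by omega)
        rwa [show i + (j - i) = j by omega] at this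
      have := near_sdiff hA (p3 i (Nat.zero_le _) (hij.trans hj)).2 (p3 j (Nat.zero_le _) hj).2
      exact this.mono (by omega)
  have hc1 : ((univ : Finset V).powersetCard k).card = k.centralBinom := by
    rw [card_powersetCard, card_univ, hV, Nat.centralBinom]
  have hc2 := Nat.four_pow_le_two_mul_self_mul_centralBinom k (by omega)
  rw [← hc1] at hc2
  have hchain := ch_card (F := F) (Δ := s + 2 * m + 4) τ t B M μ ht (by omega) hμ0 hΛ hFM hμ
    hBt hBM R 0 L (Nat.zero_le _) (by omega) ∅ univ (empty_subset _) (by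
      rw [sdiff_empty, card_univ]; omega)
  rw [sdiff_empty, card_univ, hV] at hchain
  have h4k : (2 : ℝ) ^ (2 * k) = 4 ^ k := by rw [pow_mul]; norm_num
  rw [h4k] at hchain
  push_cast at hchain
  have hc4 : ((((univ : Finset V).powersetCard k).card : ℕ) : ℝ) ≤ 4 ^ k *
        Real.exp (-(Real.log (2 * τ) * max (1 : ℝ) ((2 * k) / (μ * 2 ^ R)))) := by
    refine le_trans ?_ hchain
    exact_mod_cast card_le_card hcover
  have hc5 : (4 : ℝ) ^ k ≤ 2 * k * ((((univ : Finset V).powersetCard k).card : ℕ) : ℝ) := by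
    exact_mod_cast hc2
  have hk0 : (0 : ℝ) ≤ 2 * k := by positivity
  have hc6 := hc5.trans (mul_le_mul_of_nonneg_left hc4 hk0)
  have h4 : (0 : ℝ) < 4 ^ k := by positivity
  have hc7 : (4 : ℝ) ^ k * 1 ≤ 4 ^ k * (2 * k *
      Real.exp (-(Real.log (2 * τ) * max (1 : ℝ) ((2 * k) / (μ * 2 ^ R))))) := by
    rw [mul_one]
    refine hc6.trans (le_of_eq ?_)
    ring
  exact le_of_mul_le_mul_left hc7 h4

/-- The numbers do not fit. -/
theorem no_fit (N r : ℕ) (hr : r = N / 200) (hr50 : 50 ≤ r) (τ : ℕ)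
    (h2τ : (2 * τ : ℝ) = 2 ^ (40 * r))
    (h : (1 : ℝ) ≤ 2 ^ N * Real.exp (-(Real.log (2 * τ) *
      max (1 : ℝ) (2 ^ N / (((2 ^ (161 * r + 3) : ℕ) : ℝ) * 2 ^ (38 * r)))))) : False := by
  have hlog : Real.log (2 * (τ : ℝ)) = 40 * r * Real.log 2 := by
    rw [h2τ, Real.log_pow]; push_cast; ring
  have hl2 : (0.6931471803 : ℝ) < Real.log 2 := Real.log_two_gt_d9
  rw [hlog] at h
  have b1 : (32 : ℝ) ≤ max (1 : ℝ) (2 ^ N / (((2 ^ (161 * r + 3) : ℕ) : ℝ) * 2 ^ (38 * r))) := by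
    refine le_trans ?_ (le_max_right _ _)
    rw [le_div_iff₀ (by positivity)]
    have : (32 : ℝ) * (((2 ^ (161 * r + 3) : ℕ) : ℝ) * 2 ^ (38 * r)) =
        2 ^ (5 + (161 * r + 3) + 38 * r) := by
      push_cast
      rw [pow_add, pow_add]; norm_num; ring
    rw [this]
    apply pow_le_pow_right₀ (by norm_num)
    omega
  have b2 : (N + 2 : ℝ) * Real.log 2 ≤ 40 * r * Real.log 2 *
      max (1 : ℝ) (2 ^ N / (((2 ^ (161 * r + 3) : ℕ) : ℝ) * 2 ^ (38 * r))) := by
    have c1 : (40 * r * Real.log 2) * 32 ≤ 40 * r * Real.log 2 *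
        max (1 : ℝ) (2 ^ N / (((2 ^ (161 * r + 3) : ℕ) : ℝ) * 2 ^ (38 * r))) :=
      mul_le_mul_of_nonneg_left b1 (by positivity)
    refine le_trans ?_ c1
    have c2 : (N + 2 : ℝ) ≤ 1280 * r := by
      have : N + 2 ≤ 1280 * r := by omega
      exact_mod_cast this
    have c3 : (N + 2 : ℝ) * Real.log 2 ≤ 1280 * r * Real.log 2 :=
      mul_le_mul_of_nonneg_right c2 (by positivity)
    linarith
  have b3 : Real.exp (-((N + 2 : ℝ) * Real.log 2)) = 1 / 2 ^ (N + 2) := by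
    rw [Real.exp_neg, one_div]
    congr 1
    have : (N + 2 : ℝ) * Real.log 2 = ((N + 2 : ℕ) : ℝ) * Real.log 2 := by push_cast; ring
    rw [this, ← Real.log_pow, Real.exp_log (by positivity)]
  have b4 : (2 : ℝ) ^ N * Real.exp (-(40 * r * Real.log 2 *
      max (1 : ℝ) (2 ^ N / (((2 ^ (161 * r + 3) : ℕ) : ℝ) * 2 ^ (38 * r))))) ≤ 1 / 4 := by
    calc _ ≤ (2 : ℝ) ^ N * Real.exp (-((N + 2 : ℝ) * Real.log 2)) := by
          apply mul_le_mul_of_nonneg_left _ (by positivity)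
          apply Real.exp_le_exp.2
          linarith
      _ = 1 / 4 := by
          rw [b3, pow_add]
          field_simp
          norm_num
  linarith

/-- **The lower bound.** -/
theorem prog_lower (he : Function.Injective e) (N L m r : ℕ)
    (hr : r = N / 200) (hr50 : 50 ≤ r)
    (hV : Fintype.card V = 2 ^ N)
    (hm : ∀ d v u ℓ, P.edge d v u = some ℓ →
      (univ.filter fun i : V => e i ∈ ℓ.vars).card ≤ m)
    (hok : POk P e L P.src)
    (hS : ∀ Y : Finset V, 2 * Y.card = 2 ^ N →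
      ∃ ρ : I → K, ∀ r, RkLe Y r (tv P e ρ L P.src) → 2 ^ Y.card ≤ r)
    (hw : w ≤ 2 ^ (2 * r)) (hm' : m ≤ 2 ^ (154 * r)) : 2 ^ (38 * r ^ 2) < L := by
  by_contra hcon
  push Not at hcon
  obtain ⟨N', hN'⟩ : ∃ N', N = N' + 1 := ⟨N - 1, by omega⟩
  have hVk : Fintype.card V = 2 * 2 ^ N' := by rw [hV, hN', pow_succ]; ring
  obtain ⟨τ, hτ⟩ : ∃ τ : ℕ, τ = 2 ^ (40 * r - 1) := ⟨_, rfl⟩
  have h2τ : 2 * τ = 2 ^ (40 * r) := by
    rw [hτ, ← pow_succ']
    congr 1
    omega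
  have h2τR : (2 * (τ : ℝ)) = 2 ^ (40 * r) := by exact_mod_cast h2τ
  have hττ : 16 * τ ^ 4 ≤ 2 ^ (160 * r) := by
    have : 16 * τ ^ 4 = (2 * τ) ^ 4 := by ring
    rw [this, h2τ, ← pow_mul]
    exact le_of_eq (by congr 1; ring)
  have hr3 : r < 2 ^ r := Nat.lt_two_pow_self
  have hr2 : r ^ 2 ≤ 2 ^ (2 * r) := by
    rw [mul_comm 2 r, pow_mul]
    exact Nat.pow_le_pow_left hr3.le 2
  have hrr : 50 * r ≤ r ^ 2 := by rw [pow_two]; exact Nat.mul_le_mul_right _ hr50
  obtain ⟨ν, hν⟩ : ∃ ν, ν = 38 * r ^ 2 + 4 * r := ⟨_, rfl⟩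
  have hs1 : 2 * (ν + 1) ≤ 2 ^ (2 * r + 7) := by
    rw [pow_add]
    omega
  have hcount := prog_count (P := P) he (2 ^ N') hVk Nat.one_le_two_pow L m hm hok
    (fun Y hY => by
      obtain ⟨ρ, hρ⟩ := hS Y (by rw [hY, hN', pow_succ]; ring)
      rw [hY] at hρ
      exact ⟨ρ, hρ⟩) (2 * (ν + 1)) ν τ (2 ^ (160 * r)) (2 ^ r) (2 ^ (2 * r))
    (2 ^ (161 * r + 3)) (38 * r) ?_ ?_ le_rfl ?_ hττ ?_ hw ?_ ?_ (by positivity) ?_ ?_ ?_
  · have h2N : (2 : ℝ) * ((2 ^ N' : ℕ) : ℝ) = 2 ^ N := by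
      rw [hN', pow_succ]; push_cast; ring
    rw [h2N] at hcount
    exact no_fit N r hr hr50 τ h2τR hcount
  · rw [hν, pow_add]
    apply Nat.mul_le_mul hcon
    calc w ^ 2 ≤ (2 ^ (2 * r)) ^ 2 := Nat.pow_le_pow_left hw 2
      _ = 2 ^ (4 * r) := by rw [← pow_mul]; congr 1; ring
  · have h1 : 2 ^ (2 * r + 7) ≤ 2 ^ N' := Nat.pow_le_pow_right (by norm_num) (by omega)
    omega
  · have h1 : 2 ^ (2 * r + 7) ≤ τ := by
      rw [hτ]; exact Nat.pow_le_pow_right (by norm_num) (by omega)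
    omega
  · have : 2 * 2 ^ N' = 2 ^ N := by rw [hN', pow_succ]; ring
    rw [this]
    exact Nat.pow_le_pow_right (by norm_num) (by omega)
  · rw [h2τR, Real.log_pow]
    have hl2 : (0.6931471803 : ℝ) < Real.log 2 := Real.log_two_gt_d9
    have : (4 : ℝ) ≤ ((40 * r : ℕ) : ℝ) := by exact_mod_cast (by omega : 4 ≤ 40 * r)
    nlinarith
  · have h1 : 2 ^ (2 * r + 7) ≤ 2 ^ (160 * r) := Nat.pow_le_pow_right (by norm_num) (by omega)
    have h2 : 2 ^ (154 * r) ≤ 2 ^ (160 * r) := Nat.pow_le_pow_right (by norm_num) (by omega)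
    have h3 : 4 ≤ 2 ^ (160 * r) := by
      calc 4 = 2 ^ 2 := by norm_num
        _ ≤ _ := Nat.pow_le_pow_right (by norm_num) (by omega)
    have h4 : 2 ^ (160 * r) * 8 ≤ 2 ^ (161 * r + 3) := by
      rw [pow_add 2 (161 * r) 3]
      exact Nat.mul_le_mul (Nat.pow_le_pow_right (by norm_num) (by omega)) (by norm_num)
    omega
  · have : 8 * (2 ^ r * 2 ^ (160 * r)) = 2 ^ (3 + r + 160 * r) := by
      rw [pow_add, pow_add]; norm_num; ring
    rw [this]
    exact Nat.pow_le_pow_right (by norm_num) (by omega)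
  · have hlog : Real.log (2 * (τ : ℝ)) / 8 = Real.log (2 ^ (5 * r)) := by
      rw [h2τR, Real.log_pow, Real.log_pow]; push_cast; ring
    rw [hlog, Real.exp_neg, Real.exp_log (by positivity)]
    push_cast
    rw [← pow_mul]
    have : (2 : ℝ) ^ r * (2 ^ (2 * r * 2) * (2 ^ (5 * r))⁻¹) = 1 := by
      rw [← mul_assoc, ← pow_add, show r + 2 * r * 2 = 5 * r by ring]
      exact mul_inv_cancel₀ (by positivity)
    exact this.le
  · rw [← pow_mul]
    refine hcon.trans (Nat.pow_le_pow_right (by norm_num) (le_of_eq ?_))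
    ring

end Pool.Agent.TH708.Ari
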