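import Pool.Agent.TH708.Ari.ProgCount
import Pool.Agent.TH708.Ari.Perm

/-!
# Permanent and determinant by narrow programs
-/

set_option autoImplicit false
set_option linter.unusedSectionVars false

namespace Pool.Agent.TH708.Ari

open Finset

variable {K : Type} [Field K] {n : ℕ}

/-- The function is the permanent on matrices with entries `0` and `1`. -/
def IsPer (F : (Fin n × Fin n → K) → K) : Prop :=
  ∀ z : Fin n × Fin n → K, (∀ p, z p = 0 ∨ z p = 1) →
    F z = (Matrix.of fun i j => z (i, j)).permanent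

/-- The function is the determinant on matrices with entries `0` and `1`. -/
def IsDet (F : (Fin n × Fin n → K) → K) : Prop :=
  ∀ z : Fin n × Fin n → K, (∀ p, z p = 0 ∨ z p = 1) →
    F z = (Matrix.of fun i j => z (i, j)).det

theorem fn_full (F : (Fin n × Fin n → K) → K) (hC : IsPer F ∨ IsDet F)
    (W : Finset (Fin n)) (Y : Finset ↥W) (hY : 2 * Y.card = W.card) :
    ∃ ρ : Fin n × Fin n → K, ∀ r,
      RkLe Y r (fun x => F (point (fun i : ↥W => (i.1, i.1)) ρ x)) → 2 ^ Y.card ≤ r := by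
  classical
  obtain ⟨σ, τ, h1, h2, h3, h4, h5, h6⟩ := exists_invol W Y hY
  have he : Function.Injective (fun i : ↥W => ((i.1, i.1) : Fin n × Fin n)) :=
    fun a b h => Subtype.ext (congrArg Prod.fst h)
  let ρ : Fin n × Fin n → K := fun p => if p.1 = p.2 then 1 else if p.2 = τ p.1 then 1 else 0
  refine ⟨ρ, ?_⟩
  let d : (↥W → Bool) → Fin n → K := fun x i =>
    if h : i ∈ W then (if x ⟨i, h⟩ = true then 1 else 0) else 1
  have hpt : ∀ x i j, point (fun i : ↥W => ((i.1, i.1) : Fin n × Fin n)) ρ x (i, j) =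
      if i = j then d x i else if j = τ i then 1 else 0 := by
    intro x i j
    by_cases hij : i = j
    · subst hij
      rw [if_pos rfl]
      by_cases hi : i ∈ W
      · have := point_e he ρ x ⟨i, hi⟩
        simp only [d, hi, dite_true]
        exact this
      · rw [point_off]
        · simp [ρ, d, hi]
        · intro v hv
          have : v.1 = i := congrArg Prod.fst hv
          exact hi (this ▸ v.2)
    · rw [point_off]
      · simp [ρ, hij]
      · intro v hv
        have a1 : v.1 = i := congrArg Prod.fst hv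
        have a2 : v.1 = j := congrArg Prod.snd hv
        exact hij (a1.symm.trans a2)
  have h01 : ∀ x p, point (fun i : ↥W => ((i.1, i.1) : Fin n × Fin n)) ρ x p = 0 ∨
      point (fun i : ↥W => ((i.1, i.1) : Fin n × Fin n)) ρ x p = 1 := by
    rintro x ⟨i, j⟩
    rw [hpt]
    simp only [d]
    split_ifs <;> simp
  have hmat : ∀ x, (Matrix.of fun i j =>
      point (fun i : ↥W => ((i.1, i.1) : Fin n × Fin n)) ρ x (i, j)) =
      Matrix.of fun i j => if i = j then d x i else if j = τ i then 1 else 0 := by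
    intro x
    ext i j
    simp only [Matrix.of_apply]
    exact hpt x i j
  let Y' : Finset (Fin n) := Y.map ⟨fun i => i.1, Subtype.val_injective⟩
  have hY' : ∀ i : ↥W, i.1 ∈ Y' ↔ i ∈ Y := by
    intro i
    simp only [Y', mem_map, Function.Embedding.coeFn_mk]
    constructor
    · rintro ⟨a, ha, hb⟩; rw [← Subtype.ext hb]; exact ha
    · intro h; exact ⟨i, h, rfl⟩
  have hYW : ∀ i ∈ Y', i ∈ W := by
    intro i hi
    simp only [Y', mem_map, Function.Embedding.coeFn_mk] at hi
    obtain ⟨a, _, rfl⟩ := hi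
    exact a.2
  have hm := fun x => Pool.Agent.TH444.J1116.mtch K n Y' τ h3 (by
      intro y hy
      have hyW := hYW y hy
      have h7 := h4 ⟨y, hyW⟩
      simp only at h7
      rw [h7, hY']
      exact h1 _ ((hY' ⟨y, hyW⟩).1 hy)) (by
      intro i hi hτi
      rw [h5]
      intro hiW
      have h7 := h4 ⟨i, hiW⟩
      simp only at h7
      rw [h7, hY'] at hτi
      exact hτi (h6 _ fun h => hi ((hY' ⟨i, hiW⟩).2 h))) (d x)
  have hprod : ∀ x, ∏ i ∈ univ.filter (fun i => τ i = i), d x i = 1 := by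
    intro x
    apply prod_eq_one
    intro i hi
    rw [mem_filter, h5] at hi
    simp [d, hi.2]
  have hdy : ∀ x (y : ↥W), d x y.1 * d x (τ y.1) =
      if x y = true ∧ x (σ y) = true then 1 else 0 := by
    intro x y
    rw [h4 y]
    simp only [d, y.2, (σ y).2, dite_true]
    by_cases a : x y = true <;> by_cases b : x (σ y) = true <;> simp [a, b]
  rcases hC with hC | hC
  · intro r hr
    refine Pool.Agent.TH444.J1115.full ↥W K Y σ h1 h2 1 1 one_ne_zero one_ne_zero _ ?_ r hr
    intro x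
    show F _ = _
    rw [hC _ (h01 x), hmat x, (hm x).1, hprod x]
    simp only [Y', prod_map, Function.Embedding.coeFn_mk]
    congr 1
    exact prod_congr rfl fun y _ => by rw [hdy]
  · intro r hr
    refine Pool.Agent.TH444.J1115.full ↥W K Y σ h1 h2 (-1) 1 (neg_ne_zero.2 one_ne_zero)
      one_ne_zero _ ?_ r hr
    intro x
    show F _ = _
    rw [hC _ (h01 x), hmat x, (hm x).2, hprod x]
    simp only [Y', prod_map, Function.Embedding.coeFn_mk]
    congr 1
    exact prod_congr rfl fun y _ => by rw [hdy, sub_eq_add_neg]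

/-- **Narrow programs** for the permanent and the determinant are long. -/
theorem narrow_prog {w L m : ℕ} (P : Prog K (Fin n × Fin n) w) (T : Finset (Fin n))
    (hT : 10 ^ 4 ≤ Nat.log 2 T.card) (hw : w ^ 128 ≤ T.card) (hm : m ^ 4 ≤ T.card ^ 3)
    (hv : ∀ d v u ℓ, P.edge d v u = some ℓ → (T.filter fun i => (i, i) ∈ ℓ.vars).card ≤ m)
    (hd : ∀ i ∈ T, P.deg (i, i) L P.src ≤ 1) (hC : IsPer (P.eval L) ∨ IsDet (P.eval L)) :
    2 ^ ((Nat.log 2 T.card) ^ 2 / 1200) ≤ L := by
  classical
  obtain ⟨N, hN⟩ : ∃ N, N = Nat.log 2 T.card := ⟨_, rfl⟩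
  rw [← hN] at hT ⊢
  obtain ⟨r, hr⟩ : ∃ r, r = N / 200 := ⟨_, rfl⟩
  have hr50 : 50 ≤ r := by omega
  have hpos : T.card ≠ 0 := by
    intro h0
    rw [h0] at hN
    simp at hN
    omega
  have hlt : T.card < 2 ^ (N + 1) := by rw [hN]; exact Nat.lt_pow_succ_log_self (by norm_num) _
  obtain ⟨T', hT', hc⟩ := exists_subset_card_eq (Nat.pow_log_le_self 2 hpos)
  rw [← hN] at hc
  have hw' : w ≤ 2 ^ (2 * r) := by
    by_contra h
    push Not at h
    have h1 : (2 ^ (2 * r)) ^ 128 < w ^ 128 := Nat.pow_lt_pow_left h (by norm_num)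
    have h2 : (2 ^ (2 * r)) ^ 128 = 2 ^ (256 * r) := by rw [← pow_mul]; congr 1; ring
    have h3 : 2 ^ (N + 1) ≤ 2 ^ (256 * r) := Nat.pow_le_pow_right (by norm_num) (by omega)
    omega
  have hm' : m ≤ 2 ^ (154 * r) := by
    by_contra h
    push Not at h
    have h1 : (2 ^ (154 * r)) ^ 4 < m ^ 4 := Nat.pow_lt_pow_left h (by norm_num)
    have h2 : (2 ^ (154 * r)) ^ 4 = 2 ^ (616 * r) := by rw [← pow_mul]; congr 1; ring
    have h3 : 2 ^ (3 * (N + 1)) ≤ 2 ^ (616 * r) := Nat.pow_le_pow_right (by norm_num) (by omega)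
    have h4 : T.card ^ 3 ≤ (2 ^ (N + 1)) ^ 3 := Nat.pow_le_pow_left hlt.le 3
    have h5 : (2 ^ (N + 1)) ^ 3 = 2 ^ (3 * (N + 1)) := by rw [← pow_mul]; congr 1; ring
    omega
  have hmain := prog_lower (P := P) (e := fun i : ↥T' => ((i.1, i.1) : Fin n × Fin n))
    (fun a b h => Subtype.ext (congrArg Prod.fst h)) N L m r hr hr50
    (by rw [Fintype.card_coe, hc]) (by
      intro d v u ℓ hℓ
      refine le_trans ?_ (hv d v u ℓ hℓ)
      apply card_le_card_of_injOn (fun i : ↥T' => i.1)
      · intro i hi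
        rw [mem_coe, mem_filter] at hi
        rw [mem_coe, mem_filter]
        exact ⟨hT' i.2, hi.2⟩
      · intro a _ b _ hab
        exact Subtype.ext hab) (fun i => hd i.1 (hT' i.2)) (fun Y hY =>
      fn_full (P.eval L) hC T' Y (by rw [hY, hc])) hw' hm'
  refine le_trans (Nat.pow_le_pow_right (by norm_num) ?_) hmain.le
  have h1 : N ≤ 204 * r := by omega
  have h2 : N ^ 2 ≤ (204 * r) ^ 2 := Nat.pow_le_pow_left h1 2
  have h3 : (204 * r) ^ 2 = 41616 * r ^ 2 := by ring
  omega

end Pool.Agent.TH708.Ari
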