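import Pool.Agent.TH708.Ari.Sem
import Pool.Agent.TH708.Nar.SplitDefs

/-!
# A polynomial with small multilinear circuits and full rank for all halves
-/

set_option autoImplicit false

namespace Pool.Agent.TH708.Ari

open Finset

/-- The depth. -/
def Ex.depth {K I : Type} : Ex K I → ℕ
  | Ex.var _ => 0
  | Ex.const _ => 0
  | Ex.add F G => max F.depth G.depth + 1
  | Ex.mul F G => max F.depth G.depth + 1

/-- The depth of the circuit. -/
def Ckt.depth {K I : Type} (C : Ckt K I) : ℕ := (C.tree C.out).depth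

/-- There are polynomials in the variables `e j`, `j < 2 ^ N`, and further variables that have small
shallow multilinear circuits and, for every half `Y` of the variables `e j`, become a product over a
matching of `Y` with its complement for some values `0`, `1` of the further variables. -/
def T_up : Prop := ∃ c : ℕ, ∀ (K : Type) [Field K] (N : ℕ), 1 ≤ N →
  ∃ (I : Type) (_ : Fintype I) (_ : DecidableEq I) (e : Fin (2 ^ N) → I) (C : Ckt K I),
    Function.Injective e ∧ Fintype.card I ≤ 2 ^ (c * N) ∧ C.size ≤ 2 ^ (c * N) ∧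
    C.depth ≤ c * N ^ 2 ∧ (∀ i, C.deg i ≤ 1) ∧
    ∀ Y : Finset (Fin (2 ^ N)), 2 * Y.card = 2 ^ N →
      ∃ (ρ : I → K) (σ : Fin (2 ^ N) → Fin (2 ^ N)), (∀ i, ρ i = 0 ∨ ρ i = 1) ∧
        (∀ y ∈ Y, σ y ∉ Y) ∧ Set.InjOn σ Y ∧
        ∀ x : Fin (2 ^ N) → Bool, C.eval (point e ρ x) =
          ∏ y ∈ Y, ((if x y = true ∧ x (σ y) = true then 1 else 0) + 1)

end Pool.Agent.TH708.Ari
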