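import Pool.Agent.TH708.Ari.ProgPerm
import Pool.Agent.TH708.Ari.UpDefs
import Pool.Agent.TH515.J1358

/-!
# Small shallow multilinear circuits against narrow multilinear programs
-/

set_option autoImplicit false
set_option linter.unusedSectionVars false

namespace Pool.Agent.TH708.Ari

open Finset

theorem sep : ∃ c : ℕ, ∀ (K : Type) [Field K] (N : ℕ), 1 ≤ N →
    ∃ (I : Type) (_ : Fintype I) (_ : DecidableEq I) (e : Fin (2 ^ N) → I) (C : Ckt K I),
      Function.Injective e ∧ Fintype.card I ≤ 2 ^ (c * N) ∧ C.size ≤ 2 ^ (c * N) ∧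
      C.depth ≤ c * N ^ 2 ∧ (∀ i, C.deg i ≤ 1) ∧
      ∀ (w L m : ℕ) (P : Prog K I w), 10 ^ 4 ≤ N → w ^ 128 ≤ 2 ^ N → m ^ 4 ≤ 2 ^ (3 * N) →
        (∀ d v u ℓ, P.edge d v u = some ℓ → (univ.filter fun j => e j ∈ ℓ.vars).card ≤ m) →
        (∀ j, P.deg (e j) L P.src ≤ 1) →
        (∀ z : I → K, (∀ i, z i = 0 ∨ z i = 1) → P.eval L z = C.eval z) →
          2 ^ (N ^ 2 / 1200) ≤ L := by
  classical
  obtain ⟨c, hc⟩ := Pool.Agent.TH515.J1358.up
  refine ⟨c, fun K _ N hN => ?_⟩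
  obtain ⟨I, hI, hD, e, C, h1, h2, h3, h4, h5, h6⟩ := hc K N hN
  refine ⟨I, hI, hD, e, C, h1, h2, h3, h4, h5, ?_⟩
  intro w L m P hN4 hw hm hv hd heval
  obtain ⟨r, hr⟩ : ∃ r, r = N / 200 := ⟨_, rfl⟩
  have hr50 : 50 ≤ r := by omega
  have hw' : w ≤ 2 ^ (2 * r) := by
    by_contra h
    push Not at h
    have a1 : (2 ^ (2 * r)) ^ 128 < w ^ 128 := Nat.pow_lt_pow_left h (by norm_num)
    have a2 : (2 ^ (2 * r)) ^ 128 = 2 ^ (256 * r) := by rw [← pow_mul]; congr 1; ring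
    have a3 : 2 ^ N ≤ 2 ^ (256 * r) := Nat.pow_le_pow_right (by norm_num) (by omega)
    omega
  have hm' : m ≤ 2 ^ (154 * r) := by
    by_contra h
    push Not at h
    have a1 : (2 ^ (154 * r)) ^ 4 < m ^ 4 := Nat.pow_lt_pow_left h (by norm_num)
    have a2 : (2 ^ (154 * r)) ^ 4 = 2 ^ (616 * r) := by rw [← pow_mul]; congr 1; ring
    have a3 : 2 ^ (3 * N) ≤ 2 ^ (616 * r) := Nat.pow_le_pow_right (by norm_num) (by omega)
    omega
  have hmain := prog_lower (P := P) (e := e) h1 N L m r hr hr50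
    (by rw [Fintype.card_fin]) hv hd (fun Y hY => by
      obtain ⟨ρ, σ, b1, b2, b3, b4⟩ := h6 Y hY
      refine ⟨ρ, fun q hq => ?_⟩
      refine Pool.Agent.TH444.J1115.full (Fin (2 ^ N)) K Y σ b2 b3 1 1 one_ne_zero one_ne_zero _
        ?_ q hq
      intro x
      rw [mul_one, ← b4 x]
      apply heval
      intro i
      by_cases hi : ∃ j, e j = i
      · obtain ⟨j, rfl⟩ := hi
        rw [point_e h1]
        split_ifs <;> simp
      · push Not at hi
        rw [point_off _ _ _ hi]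
        exact b1 i) hw' hm'
  refine le_trans (Nat.pow_le_pow_right (by norm_num) ?_) hmain.le
  have g1 : N ≤ 204 * r := by omega
  have g2 : N ^ 2 ≤ (204 * r) ^ 2 := Nat.pow_le_pow_left g1 2
  have g3 : (204 * r) ^ 2 = 41616 * r ^ 2 := by ring
  omega

end Pool.Agent.TH708.Ari
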